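import Mathlib
import Pool.Agent.Helper42_Paneitz.Main

set_option autoImplicit false

/-!
# Calculus on the unit 4-sphere through radial extensions
-/

namespace Pool.Agent.Helper82_Vir

open Pool.Agent.Helper42_Paneitz
open scoped Manifold ContDiff InnerProductSpace Topology
open Filter

/-- The derivative of `f : S^4 → ℝ` at `x` in the direction `v ∈ ℝ^5`: the derivative of the
extension constant on rays. The component of `v` along `x` does not matter. -/
noncomputable def dd (f : S4 → ℝ) (x : S4) (v : E5) : ℝ := fderiv ℝ (radialExt f) (x : E5) v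

theorem dd_add (f : S4 → ℝ) (x : S4) (v w : E5) : dd f x (v + w) = dd f x v + dd f x w :=
  map_add _ _ _

theorem dd_sub (f : S4 → ℝ) (x : S4) (v w : E5) : dd f x (v - w) = dd f x v - dd f x w :=
  map_sub _ _ _

theorem dd_smul (f : S4 → ℝ) (x : S4) (c : ℝ) (v : E5) : dd f x (c • v) = c * dd f x v := by
  unfold dd; rw [map_smul, smul_eq_mul]

theorem dd_zero (f : S4 → ℝ) (x : S4) : dd f x 0 = 0 := map_zero _

theorem dd_neg (f : S4 → ℝ) (x : S4) (v : E5) : dd f x (-v) = - dd f x v := map_neg _ _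

theorem dd_sum {ι : Type*} (s : Finset ι) (f : S4 → ℝ) (x : S4) (v : ι → E5) :
    dd f x (∑ i ∈ s, v i) = ∑ i ∈ s, dd f x (v i) := map_sum _ _ _

theorem norm_pos_of_ne {y : E5} (hy : y ≠ 0) : 0 < ‖y‖ := norm_pos_iff.2 hy

theorem radialExt_pos_smul (f : S4 → ℝ) {t : ℝ} (ht : 0 < t) {y : E5} (hy : y ≠ 0) :
    radialExt f (t • y) = radialExt f y := by
  have hty : t • y ≠ 0 := smul_ne_zero ht.ne' hy
  rw [radialExt_apply f hty, radialExt_apply f hy]
  congr 1
  apply Subtype.ext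
  show ‖t • y‖⁻¹ • t • y = ‖y‖⁻¹ • y
  rw [norm_smul, Real.norm_of_nonneg ht.le, smul_smul]
  congr 1
  have := norm_pos_of_ne hy
  field_simp

theorem sm_diffAt {f : S4 → ℝ} (hf : Sm f) {y : E5} (hy : y ≠ 0) :
    DifferentiableAt ℝ (radialExt f) y :=
  (hf y hy).differentiableAt (by simp)

theorem fderiv_radialExt_smul {f : S4 → ℝ} (hf : Sm f) {t : ℝ} (ht : 0 < t) {y : E5}
    (hy : y ≠ 0) (v : E5) :
    fderiv ℝ (radialExt f) (t • y) v = t⁻¹ * fderiv ℝ (radialExt f) y v := by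
  have hty : t • y ≠ 0 := smul_ne_zero ht.ne' hy
  have h1 : HasFDerivAt (radialExt f) (fderiv ℝ (radialExt f) (t • y)) (t • y) :=
    (sm_diffAt hf hty).hasFDerivAt
  have h2 : HasFDerivAt (fun z : E5 => t • z) (t • ContinuousLinearMap.id ℝ E5) y :=
    (hasFDerivAt_id y).const_smul t
  have h3 := h1.comp y h2
  have h4 : (radialExt f ∘ fun z : E5 => t • z) =ᶠ[𝓝 y] radialExt f := by
    filter_upwards [eventually_ne_zero hy] with z hz
    exact radialExt_pos_smul f ht hz
  have h5 := (h3.congr_of_eventuallyEq h4.symm).unique (sm_diffAt hf hy).hasFDerivAt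
  have h6 := congrArg (fun L => L v) h5
  simp only [ContinuousLinearMap.comp_apply, _root_.smul_apply,
    ContinuousLinearMap.id_apply, map_smul, smul_eq_mul] at h6
  rw [← h6]
  field_simp

theorem dd_self {f : S4 → ℝ} (hf : Sm f) (x : S4) : dd f x (x : E5) = 0 := by
  have hx := S4_ne_zero x
  have h1 : HasDerivAt (fun t : ℝ => radialExt f ((x : E5) + t • (x : E5)))
      (fderiv ℝ (radialExt f) ((x : E5) + (0 : ℝ) • (x : E5)) (x : E5)) 0 :=
    hasDerivAt_comp_line (by simpa using sm_diffAt hf hx)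
  have h2 : (fun t : ℝ => radialExt f ((x : E5) + t • (x : E5))) =ᶠ[𝓝 0]
      fun _ => radialExt f (x : E5) := by
    have : ∀ᶠ t : ℝ in 𝓝 0, -1 < t := lt_mem_nhds (by norm_num)
    filter_upwards [this] with t ht
    have h3 : (x : E5) + t • (x : E5) = (1 + t) • (x : E5) := by rw [add_smul, one_smul]
    rw [h3, radialExt_pos_smul f (by linarith) hx]
  have h3 := (h1.congr_of_eventuallyEq h2.symm).unique (hasDerivAt_const (0 : ℝ) _)
  simpa [dd] using h3

theorem radialExt_dd {f : S4 → ℝ} (hf : Sm f) (v : E5) {y : E5} (hy : y ≠ 0) :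
    radialExt (fun x => dd f x v) y = ‖y‖ * fderiv ℝ (radialExt f) y v := by
  have hn := norm_pos_of_ne hy
  rw [radialExt_apply _ hy]
  show fderiv ℝ (radialExt f) (‖y‖⁻¹ • y) v = _
  rw [fderiv_radialExt_smul hf (inv_pos.2 hn) hy, inv_inv]

theorem sm_dd {f : S4 → ℝ} (hf : Sm f) (v : E5) : Sm (fun x => dd f x v) := by
  intro y hy
  have h1 : radialExt (fun x => Helper82_Vir.dd f x v) =ᶠ[𝓝 y]
      fun z => ‖z‖ * fderiv ℝ (radialExt f) z v := by
    filter_upwards [eventually_ne_zero hy] with z hz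
    exact radialExt_dd hf v hz
  refine ContDiffAt.congr_of_eventuallyEq ?_ h1
  have h2 : ContDiffAt ℝ ∞ (fun z : E5 => ‖z‖) y := contDiffAt_norm ℝ hy
  have h3 : ContDiffAt ℝ ∞ (fderiv ℝ (radialExt f)) y := (hf y hy).fderiv_right (by simp)
  exact h2.mul (h3.clm_apply contDiffAt_const)

theorem radialExt_mul (u v : S4 → ℝ) {y : E5} (hy : y ≠ 0) :
    radialExt (fun x => u x * v x) y = radialExt u y * radialExt v y := by
  simp only [radialExt_apply _ hy]

theorem radialExt_mul_ev (u v : S4 → ℝ) {y : E5} (hy : y ≠ 0) :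
    radialExt (fun x => u x * v x) =ᶠ[𝓝 y] fun z => radialExt u z * radialExt v z := by
  filter_upwards [eventually_ne_zero hy] with z hz
  exact radialExt_mul u v hz

theorem sm_mul {u v : S4 → ℝ} (hu : Sm u) (hv : Sm v) : Sm (fun x => u x * v x) := fun y hy =>
  ((hu y hy).mul (hv y hy)).congr_of_eventuallyEq (radialExt_mul_ev u v hy)

theorem sm_neg {u : S4 → ℝ} (hu : Sm u) : Sm (fun x => - u x) := by
  have := hu.smul (-1)
  simpa using this

theorem sm_sub {u v : S4 → ℝ} (hu : Sm u) (hv : Sm v) : Sm (fun x => u x - v x) := by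
  have := hu.add (sm_neg hv)
  simpa [sub_eq_add_neg] using this

theorem sm_sum {ι : Type*} (s : Finset ι) {u : ι → S4 → ℝ} (hu : ∀ i ∈ s, Sm (u i)) :
    Sm (fun x => ∑ i ∈ s, u i x) := by
  classical
  induction s using Finset.induction_on with
  | empty => simpa using sm_const 0
  | insert a s ha ih =>
    simp only [Finset.sum_insert ha]
    exact (hu a (Finset.mem_insert_self _ _)).add
      (ih fun i hi => hu i (Finset.mem_insert_of_mem hi))

theorem sm_comp {f : S4 → ℝ} (hf : Sm f) {φ : ℝ → ℝ} (hφ : ContDiff ℝ ∞ φ) :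
    Sm (fun x => φ (f x)) := by
  intro y hy
  have h1 : radialExt (fun x => φ (f x)) =ᶠ[𝓝 y] fun z => φ (radialExt f z) := by
    filter_upwards [eventually_ne_zero hy] with z hz
    simp only [radialExt_apply _ hz]
  exact (hφ.contDiffAt.comp y (hf y hy)).congr_of_eventuallyEq h1

theorem dd_const (c : ℝ) (x : S4) (v : E5) : dd (fun _ => c) x v = 0 := by
  have h : radialExt (fun _ : S4 => c) =ᶠ[𝓝 (x : E5)] fun _ => c := by
    filter_upwards [eventually_ne_zero (S4_ne_zero x)] with z hz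
    rw [radialExt_apply _ hz]
  unfold dd
  rw [h.fderiv_eq]
  simp

theorem dd_fun_add {f g : S4 → ℝ} (hf : Sm f) (hg : Sm g) (x : S4) (v : E5) :
    dd (fun z => f z + g z) x v = dd f x v + dd g x v := by
  have hx := S4_ne_zero x
  unfold dd
  rw [(radialExt_add_ev f g hx).fderiv_eq,
    fderiv_add (sm_diffAt hf hx) (sm_diffAt hg hx)]
  rfl

theorem dd_fun_smul {f : S4 → ℝ} (c : ℝ) (hf : Sm f) (x : S4) (v : E5) :
    dd (fun z => c * f z) x v = c * dd f x v := by
  have hx := S4_ne_zero x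
  unfold dd
  rw [(radialExt_smul_ev c f hx).fderiv_eq, fderiv_const_smul (sm_diffAt hf hx)]
  rfl

theorem dd_fun_neg {f : S4 → ℝ} (hf : Sm f) (x : S4) (v : E5) :
    dd (fun z => - f z) x v = - dd f x v := by
  have := dd_fun_smul (-1) hf x v
  simpa using this

theorem dd_fun_sub {f g : S4 → ℝ} (hf : Sm f) (hg : Sm g) (x : S4) (v : E5) :
    dd (fun z => f z - g z) x v = dd f x v - dd g x v := by
  have := dd_fun_add hf (sm_neg hg) x v
  rw [dd_fun_neg hg] at this
  simpa [sub_eq_add_neg] using this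

theorem dd_mul {f g : S4 → ℝ} (hf : Sm f) (hg : Sm g) (x : S4) (v : E5) :
    dd (fun z => f z * g z) x v = f x * dd g x v + g x * dd f x v := by
  have hx := S4_ne_zero x
  unfold dd
  rw [(radialExt_mul_ev f g hx).fderiv_eq, fderiv_fun_mul (sm_diffAt hf hx) (sm_diffAt hg hx)]
  simp [radialExt_coe]

theorem dd_fun_sum {ι : Type*} (s : Finset ι) {u : ι → S4 → ℝ} (hu : ∀ i ∈ s, Sm (u i))
    (x : S4) (v : E5) : dd (fun z => ∑ i ∈ s, u i z) x v = ∑ i ∈ s, dd (u i) x v := by
  classical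
  induction s using Finset.induction_on with
  | empty => simpa using dd_const 0 x v
  | insert a s ha ih =>
    simp only [Finset.sum_insert ha]
    rw [dd_fun_add (hu a (Finset.mem_insert_self _ _))
      (sm_sum s fun i hi => hu i (Finset.mem_insert_of_mem hi)),
      ih fun i hi => hu i (Finset.mem_insert_of_mem hi)]

theorem dd_comp {f : S4 → ℝ} (hf : Sm f) {φ : ℝ → ℝ} (hφ : ContDiff ℝ ∞ φ) (x : S4) (v : E5) :
    dd (fun z => φ (f z)) x v = deriv φ (f x) * dd f x v := by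
  have hx := S4_ne_zero x
  have h1 : radialExt (fun x => φ (f x)) =ᶠ[𝓝 (x : E5)] fun z => φ (radialExt f z) := by
    filter_upwards [eventually_ne_zero hx] with z hz
    simp only [radialExt_apply _ hz]
  have h2 : HasFDerivAt (radialExt f) (fderiv ℝ (radialExt f) (x : E5)) (x : E5) :=
    (sm_diffAt hf hx).hasFDerivAt
  have h3 : HasDerivAt φ (deriv φ (radialExt f (x : E5))) (radialExt f (x : E5)) :=
    ((hφ.differentiable (by simp)) _).hasDerivAt
  have h4 := h3.comp_hasFDerivAt (x : E5) h2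
  unfold dd
  rw [h1.fderiv_eq]
  have h5 : fderiv ℝ (fun z => φ (radialExt f z)) (x : E5) =
      deriv φ (radialExt f (x : E5)) • fderiv ℝ (radialExt f) (x : E5) := h4.fderiv
  rw [h5, radialExt_coe]
  rfl

theorem hasFDerivAt_norm_S4 (x : S4) :
    HasFDerivAt (fun y : E5 => ‖y‖) (innerSL ℝ (x : E5)) (x : E5) := by
  have hxn := S4_norm x
  have h1 : HasFDerivAt (fun y : E5 => ‖y‖ ^ 2) (2 • innerSL ℝ (x : E5)) (x : E5) :=
    (hasStrictFDerivAt_norm_sq (x : E5)).hasFDerivAt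
  have h2 : HasFDerivAt (fun y : E5 => √(‖y‖ ^ 2))
      ((1 / (2 * √(‖(x : E5)‖ ^ 2))) • (2 • innerSL ℝ (x : E5))) (x : E5) :=
    h1.sqrt (by rw [hxn]; norm_num)
  have h3 : (fun y : E5 => √(‖y‖ ^ 2)) = fun y => ‖y‖ := by
    funext y; exact Real.sqrt_sq (norm_nonneg y)
  rw [h3] at h2
  have h4 : (1 / (2 * √(‖(x : E5)‖ ^ 2))) • (2 • innerSL ℝ (x : E5)) = innerSL ℝ (x : E5) := by
    rw [hxn, two_nsmul, smul_add, ← add_smul]
    norm_num
  rwa [h4] at h2

theorem sm_inner (a : E5) : Sm (fun x : S4 => ⟪a, (x : E5)⟫_ℝ) :=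
  sm_of_restrict (fun y => ⟪a, y⟫_ℝ) fun _ => (contDiff_const.inner ℝ contDiff_id).contDiffAt

theorem dd_inner (a : E5) (x : S4) (v : E5) :
    dd (fun z : S4 => ⟪a, (z : E5)⟫_ℝ) x v = ⟪a, v⟫_ℝ - ⟪a, (x : E5)⟫_ℝ * ⟪(x : E5), v⟫_ℝ := by
  have hx := S4_ne_zero x
  have hxn := S4_norm x
  have hn := hasFDerivAt_norm_S4 x
  have hinv : HasFDerivAt (fun y : E5 => ‖y‖⁻¹) (-(‖(x : E5)‖ ^ 2)⁻¹ • innerSL ℝ (x : E5))
      (x : E5) := (hasDerivAt_inv (norm_ne_zero_iff.2 hx)).comp_hasFDerivAt (x : E5) hn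
  have hin : HasFDerivAt (fun y : E5 => ⟪a, y⟫_ℝ) (innerSL ℝ a) (x : E5) :=
    (innerSL ℝ a).hasFDerivAt
  have hmul := hinv.mul hin
  have heq : radialExt (fun z : S4 => ⟪a, (z : E5)⟫_ℝ) =ᶠ[𝓝 (x : E5)]
      (fun y : E5 => ‖y‖⁻¹) * fun y : E5 => ⟪a, y⟫_ℝ := by
    filter_upwards [eventually_ne_zero hx] with z hz
    rw [radialExt_apply _ hz]
    show ⟪a, ‖z‖⁻¹ • z⟫_ℝ = ‖z‖⁻¹ * ⟪a, z⟫_ℝ
    rw [inner_smul_right]
  unfold dd
  rw [heq.fderiv_eq, hmul.fderiv]
  simp only [_root_.add_apply, _root_.smul_apply, innerSL_apply_apply,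
    smul_eq_mul, hxn]
  ring

/-- the `i`-th standard basis vector of `ℝ^5` -/
noncomputable abbrev ee (i : Fin 5) : E5 := EuclideanSpace.basisFun (Fin 5) ℝ i

theorem inner_ee (a : E5) (i : Fin 5) : ⟪a, ee i⟫_ℝ = a i := inner_basis a i

theorem inner_ee' (a : E5) (i : Fin 5) : ⟪ee i, a⟫_ℝ = a i := by
  rw [real_inner_comm]; exact inner_basis a i

theorem sum_ee (a : E5) : ∑ i : Fin 5, a i • ee i = a := by
  have := (EuclideanSpace.basisFun (Fin 5) ℝ).sum_repr a
  simpa using this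

theorem dd_eq_sum (f : S4 → ℝ) (x : S4) (v : E5) :
    dd f x v = ∑ i : Fin 5, v i * dd f x (ee i) := by
  conv_lhs => rw [← sum_ee v]
  rw [dd_sum]
  exact Finset.sum_congr rfl fun i _ => dd_smul _ _ _ _

/-- The Laplace-Beltrami operator as a sum of second derivatives. -/
theorem sphLaplacian_eq {f : S4 → ℝ} (hf : Sm f) (x : S4) :
    sphLaplacian f x = ∑ i : Fin 5, dd (fun z => dd f z (ee i)) x (ee i) := by
  have hx := S4_ne_zero x
  have hxn := S4_norm x
  unfold sphLaplacian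
  rw [laplacian_eq_sum]
  have hterm : ∀ i : Fin 5, dd (fun z => dd f z (ee i)) x (ee i) =
      iteratedFDeriv ℝ 2 (radialExt f) x ![ee i, ee i] + (x : E5) i * dd f x (ee i) := by
    intro i
    have heq : radialExt (fun z => dd f z (ee i)) =ᶠ[𝓝 (x : E5)]
        (fun z : E5 => ‖z‖) * fun z => fderiv ℝ (radialExt f) z (ee i) := by
      filter_upwards [eventually_ne_zero hx] with z hz
      exact radialExt_dd hf _ hz
    have hn : DifferentiableAt ℝ (fun y : E5 => ‖y‖) (x : E5) :=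
      (contDiffAt_norm ℝ hx (n := 1)).differentiableAt (by simp)
    have hfd : ContDiffAt ℝ ∞ (fderiv ℝ (radialExt f)) (x : E5) :=
      (hf x hx).fderiv_right (by simp)
    have hfd1 : DifferentiableAt ℝ (fderiv ℝ (radialExt f)) (x : E5) :=
      hfd.differentiableAt (by simp)
    have hg : DifferentiableAt ℝ (fun z => fderiv ℝ (radialExt f) z (ee i)) (x : E5) :=
      hfd1.clm_apply (differentiableAt_const _)
    have h1 := fderiv_mul hn hg
    show fderiv ℝ (radialExt fun z => dd f z (ee i)) (x : E5) (ee i) = _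
    rw [heq.fderiv_eq, h1]
    have h2 : fderiv ℝ (fun z => fderiv ℝ (radialExt f) z (ee i)) (x : E5) (ee i) =
        iteratedFDeriv ℝ 2 (radialExt f) x ![ee i, ee i] := by
      rw [iteratedFDeriv_two_apply]
      simp only [Matrix.cons_val_zero, Matrix.cons_val_one]
      have h3 : HasFDerivAt (fun z => fderiv ℝ (radialExt f) z (ee i))
          ((fderiv ℝ (fderiv ℝ (radialExt f)) (x : E5)).flip (ee i)) (x : E5) := by
        have := hfd1.hasFDerivAt.clm_apply (hasFDerivAt_const (ee i) (x : E5))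
        simpa using this
      rw [h3.fderiv]
      rfl
    have h4 : fderiv ℝ (fun y : E5 => ‖y‖) (x : E5) (ee i) = (x : E5) i := by
      have h5 := hasFDerivAt_norm_S4 x
      rw [h5.fderiv, innerSL_apply_apply, inner_ee]
    simp only [_root_.add_apply, _root_.smul_apply, smul_eq_mul, h2, h4,
      hxn, dd]
    ring
  rw [Finset.sum_congr rfl fun i _ => hterm i, Finset.sum_add_distrib]
  have h0 : ∑ i : Fin 5, (x : E5) i * dd f x (ee i) = 0 := by
    rw [← dd_eq_sum, dd_self hf]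
  rw [h0, add_zero]

end Pool.Agent.Helper82_Vir
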