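import Mathlib
import Pool.Agent.Helper82_Vir.Base

set_option autoImplicit false

/-!
# Surface measure, rotations and the divergence theorem on the 4-sphere
-/

namespace Pool.Agent.Helper82_Vir

open Pool.Agent.Helper42_Paneitz
open scoped Manifold ContDiff InnerProductSpace Topology Pointwise
open Filter MeasureTheory Set

/-- the surface measure of the unit sphere of `ℝ^5` -/
noncomputable def sig : Measure S4 := (volume : Measure E5).toSphere

instance : IsFiniteMeasure sig := by unfold sig; infer_instance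

instance : sig.IsOpenPosMeasure := by unfold sig; infer_instance

/-- the action of a linear isometry on the sphere -/
noncomputable def act (R : E5 ≃ₗᵢ[ℝ] E5) (x : S4) : S4 :=
  ⟨R x, by rw [mem_sphere_zero_iff_norm, R.norm_map]; exact S4_norm x⟩

theorem act_coe (R : E5 ≃ₗᵢ[ℝ] E5) (x : S4) : (act R x : E5) = R x := rfl

theorem continuous_act (R : E5 ≃ₗᵢ[ℝ] E5) : Continuous (act R) :=
  (R.continuous.comp continuous_subtype_val).subtype_mk _

theorem act_image (R : E5 ≃ₗᵢ[ℝ] E5) (s : Set S4) :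
    Ioo (0 : ℝ) 1 • (((↑) : S4 → E5) '' (act R ⁻¹' s)) =
      R ⁻¹' (Ioo (0 : ℝ) 1 • (((↑) : S4 → E5) '' s)) := by
  ext y
  constructor
  · rintro ⟨t, ht, z, ⟨x, hx, rfl⟩, rfl⟩
    refine ⟨t, ht, R x, ⟨act R x, hx, rfl⟩, ?_⟩
    show t • R (x : E5) = R (t • (x : E5))
    rw [R.map_smul]
  · rintro ⟨t, ht, z, ⟨x, hx, rfl⟩, h⟩
    have h' : t • (x : E5) = R y := h
    refine ⟨t, ht, R.symm x, ⟨act R.symm x, ?_, rfl⟩, ?_⟩
    · show act R (act R.symm x) ∈ s
      have : act R (act R.symm x) = x := by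
        apply Subtype.ext
        show R (R.symm (x : E5)) = x
        rw [R.apply_symm_apply]
      rwa [this]
    · show t • R.symm (x : E5) = y
      rw [← R.symm.map_smul, h', R.symm_apply_apply]

theorem measurePreserving_act (R : E5 ≃ₗᵢ[ℝ] E5) : MeasurePreserving (act R) sig sig := by
  refine ⟨(continuous_act R).measurable, ?_⟩
  ext s hs
  rw [Measure.map_apply (continuous_act R).measurable hs]
  unfold sig
  rw [Measure.toSphere_apply' _ ((continuous_act R).measurable hs), Measure.toSphere_apply' _ hs,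
    act_image]
  congr 1
  have hR : MeasurePreserving (R.toHomeomorph.toMeasurableEquiv) (volume : Measure E5) volume :=
    R.measurePreserving
  exact hR.measure_preimage_equiv _

theorem integral_act (R : E5 ≃ₗᵢ[ℝ] E5) {f : S4 → ℝ} (hf : Continuous f) :
    ∫ y, f (act R y) ∂sig = ∫ y, f y ∂sig := by
  have h := (measurePreserving_act R).map_eq
  conv_rhs => rw [← h]
  rw [integral_map (continuous_act R).aemeasurable hf.aestronglyMeasurable]

theorem integrable_cont {f : S4 → ℝ} (hf : Continuous f) : Integrable f sig :=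
  hf.integrable_of_hasCompactSupport (HasCompactSupport.of_compactSpace f)

section Plane

variable (p q : E5)

/-- infinitesimal rotation in the plane of `p, q` -/
noncomputable def Jf (p q y : E5) : E5 := ⟪p, y⟫_ℝ • q - ⟪q, y⟫_ℝ • p

/-- rotation by the angle `t` in the plane of the orthonormal pair `p, q` -/
noncomputable def rot (p q : E5) (t : ℝ) (y : E5) : E5 :=
  y + (Real.cos t - 1) • (⟪p, y⟫_ℝ • p + ⟪q, y⟫_ℝ • q) + Real.sin t • (⟪p, y⟫_ℝ • q - ⟪q, y⟫_ℝ • p)

/-- as a linear map -/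
noncomputable def rotL (p q : E5) (t : ℝ) : E5 →ₗ[ℝ] E5 where
  toFun := rot p q t
  map_add' := by
    intro x y
    simp only [rot, inner_add_right, add_smul, smul_add, smul_sub]
    abel
  map_smul' := by
    intro c x
    simp only [rot, inner_smul_right, RingHom.id_apply, smul_add, smul_sub, smul_smul]
    congr 1
    · congr 1
      congr 1 <;> ring_nf
    · congr 1 <;> ring_nf

variable {p q}

theorem inner_rot_left (hp : ‖p‖ = 1) (hpq : ⟪p, q⟫_ℝ = 0) (t : ℝ) (y : E5) :
    ⟪p, rot p q t y⟫_ℝ = Real.cos t * ⟪p, y⟫_ℝ - Real.sin t * ⟪q, y⟫_ℝ := by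
  have h1 : ⟪p, p⟫_ℝ = 1 := by rw [real_inner_self_eq_norm_sq, hp]; norm_num
  simp only [rot, inner_add_right, inner_sub_right, inner_smul_right, h1, hpq]
  ring

theorem inner_rot_right (hq : ‖q‖ = 1) (hpq : ⟪p, q⟫_ℝ = 0) (t : ℝ) (y : E5) :
    ⟪q, rot p q t y⟫_ℝ = Real.cos t * ⟪q, y⟫_ℝ + Real.sin t * ⟪p, y⟫_ℝ := by
  have h1 : ⟪q, q⟫_ℝ = 1 := by rw [real_inner_self_eq_norm_sq, hq]; norm_num
  have h2 : ⟪q, p⟫_ℝ = 0 := by rw [real_inner_comm]; exact hpq
  simp only [rot, inner_add_right, inner_sub_right, inner_smul_right, h1, h2]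
  ring

theorem norm_rot (hp : ‖p‖ = 1) (hq : ‖q‖ = 1) (hpq : ⟪p, q⟫_ℝ = 0) (t : ℝ) (y : E5) :
    ‖rot p q t y‖ = ‖y‖ := by
  have h1 : ⟪p, p⟫_ℝ = 1 := by rw [real_inner_self_eq_norm_sq, hp]; norm_num
  have h2 : ⟪q, q⟫_ℝ = 1 := by rw [real_inner_self_eq_norm_sq, hq]; norm_num
  have h3 : ⟪q, p⟫_ℝ = 0 := by rw [real_inner_comm]; exact hpq
  have hsc := Real.sin_sq_add_cos_sq t
  have h : ‖rot p q t y‖ ^ 2 = ‖y‖ ^ 2 := by
    rw [← real_inner_self_eq_norm_sq, ← real_inner_self_eq_norm_sq]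
    have e1 : ⟪rot p q t y, rot p q t y⟫_ℝ = ⟪rot p q t y, y⟫_ℝ
        + (Real.cos t - 1) * (⟪p, y⟫_ℝ * ⟪p, rot p q t y⟫_ℝ + ⟪q, y⟫_ℝ * ⟪q, rot p q t y⟫_ℝ)
        + Real.sin t * (⟪p, y⟫_ℝ * ⟪q, rot p q t y⟫_ℝ - ⟪q, y⟫_ℝ * ⟪p, rot p q t y⟫_ℝ) := by
      have e0 : ∀ z : E5, ⟪rot p q t y, z⟫_ℝ = ⟪z, y⟫_ℝ
        + (Real.cos t - 1) * (⟪p, y⟫_ℝ * ⟪p, z⟫_ℝ + ⟪q, y⟫_ℝ * ⟪q, z⟫_ℝ)
        + Real.sin t * (⟪p, y⟫_ℝ * ⟪q, z⟫_ℝ - ⟪q, y⟫_ℝ * ⟪p, z⟫_ℝ) := by
        intro z
        simp only [rot, inner_add_left, inner_sub_left, real_inner_smul_left]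
        rw [real_inner_comm z y]
      exact e0 _
    have e2 : ⟪rot p q t y, y⟫_ℝ = ⟪y, y⟫_ℝ + (Real.cos t - 1) *
        (⟪p, y⟫_ℝ * ⟪p, y⟫_ℝ + ⟪q, y⟫_ℝ * ⟪q, y⟫_ℝ) := by
      simp only [rot, inner_add_left, inner_sub_left, real_inner_smul_left]
      ring
    rw [e1, e2, inner_rot_left hp hpq, inner_rot_right hq hpq]
    have hs2 : Real.sin t ^ 2 = 1 - Real.cos t ^ 2 := by linarith
    ring_nf
    rw [hs2]
    ring
  have := congrArg Real.sqrt h
  rwa [Real.sqrt_sq (norm_nonneg _), Real.sqrt_sq (norm_nonneg _)] at this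

/-- the plane rotation as a linear isometric equivalence -/
noncomputable def rotE (hp : ‖p‖ = 1) (hq : ‖q‖ = 1) (hpq : ⟪p, q⟫_ℝ = 0) (t : ℝ) :
    E5 ≃ₗᵢ[ℝ] E5 :=
  LinearIsometry.toLinearIsometryEquiv
    ⟨rotL p q t, fun y => norm_rot hp hq hpq t y⟩ rfl

theorem rotE_apply (hp : ‖p‖ = 1) (hq : ‖q‖ = 1) (hpq : ⟪p, q⟫_ℝ = 0) (t : ℝ) (y : E5) :
    rotE hp hq hpq t y = rot p q t y := rfl

theorem hasDerivAt_rot (hp : ‖p‖ = 1) (hq : ‖q‖ = 1) (hpq : ⟪p, q⟫_ℝ = 0) (y : E5) (t : ℝ) :
    HasDerivAt (fun t => rot p q t y) (Jf p q (rot p q t y)) t := by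
  have h1 : HasDerivAt (fun t : ℝ => y + (Real.cos t - 1) • (⟪p, y⟫_ℝ • p + ⟪q, y⟫_ℝ • q) +
      Real.sin t • (⟪p, y⟫_ℝ • q - ⟪q, y⟫_ℝ • p))
      ((-Real.sin t) • (⟪p, y⟫_ℝ • p + ⟪q, y⟫_ℝ • q) +
        Real.cos t • (⟪p, y⟫_ℝ • q - ⟪q, y⟫_ℝ • p)) t := by
    have ha := (((Real.hasDerivAt_cos t).sub_const (1 : ℝ)).smul_const
      (⟪p, y⟫_ℝ • p + ⟪q, y⟫_ℝ • q)).const_add y
    exact ha.add ((Real.hasDerivAt_sin t).smul_const _)
  refine h1.congr_deriv ?_
  unfold Jf
  rw [inner_rot_left hp hpq, inner_rot_right hq hpq]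
  module

end Plane

/-- derivative of a smooth function along a curve on the sphere -/
theorem hasDerivAt_along {f : S4 → ℝ} (hf : Sm f) {c : ℝ → E5} {c' : E5} {t : ℝ} {x : S4}
    (hx : c t = (x : E5)) (hc : HasDerivAt c c' t) :
    HasDerivAt (fun t => radialExt f (c t)) (dd f x c') t := by
  have h1 : HasFDerivAt (radialExt f) (fderiv ℝ (radialExt f) (c t)) (c t) := by
    rw [hx]; exact (sm_diffAt hf (S4_ne_zero x)).hasFDerivAt
  have h2 := h1.comp_hasDerivAt t hc
  rw [hx] at h2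
  exact h2

theorem continuous_dd_field {f : S4 → ℝ} (hf : Sm f) {V : S4 → E5} (hV : Continuous V) :
    Continuous (fun x => dd f x (V x)) := by
  have h : (fun x => dd f x (V x)) = fun x => ∑ i : Fin 5, V x i * dd f x (ee i) := by
    funext x; exact dd_eq_sum f x (V x)
  rw [h]
  refine continuous_finsetSum _ fun i _ => ?_
  have h1 : Continuous fun x => V x i := by
    have : Continuous fun v : E5 => v i := by fun_prop
    exact this.comp hV
  exact h1.mul (continuous_of_sm (sm_dd hf (ee i)))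

theorem continuous_Jf (p q : E5) : Continuous (fun x : S4 => Jf p q (x : E5)) := by
  unfold Jf
  have h : Continuous fun x : S4 => (x : E5) := continuous_subtype_val
  fun_prop

/-- The integral of the derivative along an infinitesimal rotation vanishes. -/
theorem integral_dd_Jf {f : S4 → ℝ} (hf : Sm f) {p q : E5} (hp : ‖p‖ = 1) (hq : ‖q‖ = 1)
    (hpq : ⟪p, q⟫_ℝ = 0) : ∫ y, dd f y (Jf p q (y : E5)) ∂sig = 0 := by
  have hfc := continuous_of_sm hf
  have hcont := continuous_dd_field hf (continuous_Jf p q)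
  obtain ⟨C, hC⟩ := isCompact_univ.exists_bound_of_continuousOn (hcont.continuousOn (s := univ))
  have hd : ∀ (y : S4) (t : ℝ), HasDerivAt (fun t => f (act (rotE hp hq hpq t) y))
      (dd f (act (rotE hp hq hpq t) y) (Jf p q (act (rotE hp hq hpq t) y : E5))) t := by
    intro y t
    have h1 := hasDerivAt_along hf (c := fun t => rot p q t y) (x := act (rotE hp hq hpq t) y)
      (t := t) rfl (hasDerivAt_rot hp hq hpq (y : E5) t)
    have h2 : (fun t => f (act (rotE hp hq hpq t) y)) = fun t => radialExt f (rot p q t y) := by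
      funext s
      have := radialExt_coe f (act (rotE hp hq hpq s) y)
      exact this.symm
    rw [h2]
    exact h1
  have hmain := hasDerivAt_integral_of_dominated_loc_of_deriv_le (μ := sig) (𝕜 := ℝ)
    (F := fun t y => f (act (rotE hp hq hpq t) y))
    (F' := fun t y => dd f (act (rotE hp hq hpq t) y)
      (Jf p q (act (rotE hp hq hpq t) y : E5))) (x₀ := 0) (s := univ) (bound := fun _ => C)
    univ_mem
    (Eventually.of_forall fun t => (hfc.comp (continuous_act _)).aestronglyMeasurable)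
    (integrable_cont (hfc.comp (continuous_act _)))
    ((hcont.comp (continuous_act _)).aestronglyMeasurable)
    (Eventually.of_forall fun y t _ => hC _ (mem_univ _))
    (integrable_const C)
    (Eventually.of_forall fun y t _ => hd y t)
  have h3 : (fun t : ℝ => ∫ y, f (act (rotE hp hq hpq t) y) ∂sig) =
      fun _ => ∫ y, f y ∂sig := by
    funext t; exact integral_act _ hfc
  have h4 := hmain.2
  rw [h3] at h4
  have h5 := h4.unique (hasDerivAt_const (0 : ℝ) _)
  have h6 : ∀ y : S4, act (rotE hp hq hpq 0) y = y := by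
    intro y
    apply Subtype.ext
    show rot p q 0 (y : E5) = y
    simp [rot]
  simpa only [h6] using h5

theorem norm_ee (i : Fin 5) : ‖ee i‖ = 1 := (EuclideanSpace.basisFun (Fin 5) ℝ).orthonormal.1 i

theorem inner_ee_ee {i j : Fin 5} (h : i ≠ j) : ⟪ee i, ee j⟫_ℝ = 0 :=
  (EuclideanSpace.basisFun (Fin 5) ℝ).orthonormal.2 h

theorem ee_apply (i j : Fin 5) : (ee i) j = if j = i then 1 else 0 := by
  simp [ee]

theorem integral_sum_dd {f : S4 → ℝ} (hf : Sm f) (k : Fin 5) :
    ∫ y, dd f y (ee k) ∂sig = 4 * ∫ y, (y : E5) k * f y ∂sig := by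
  have hfc := continuous_of_sm hf
  have hcoord : ∀ j : Fin 5, Continuous fun y : S4 => (y : E5) j := by
    intro j
    have h1 : Continuous fun v : E5 => v j := by fun_prop
    exact h1.comp continuous_subtype_val
  -- pointwise identity
  have hpt : ∀ y : S4, dd f y (ee k) = ∑ j : Fin 5, (y : E5) j * dd f y (Jf (ee j) (ee k) y) := by
    intro y
    have h1 : ∀ j : Fin 5, (y : E5) j * dd f y (Jf (ee j) (ee k) y) =
        (y : E5) j ^ 2 * dd f y (ee k) - (y : E5) k * ((y : E5) j * dd f y (ee j)) := by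
      intro j
      unfold Jf
      rw [dd_sub, dd_smul, dd_smul, inner_ee', inner_ee']
      ring
    rw [Finset.sum_congr rfl fun j _ => h1 j, Finset.sum_sub_distrib, ← Finset.sum_mul,
      ← Finset.mul_sum, ← dd_eq_sum, dd_self hf, sum_sq, S4_norm]
    ring
  have hint : ∀ j : Fin 5, ∫ y, (y : E5) j * dd f y (Jf (ee j) (ee k) y) ∂sig =
      if j = k then 0 else ∫ y, (y : E5) k * f y ∂sig := by
    intro j
    by_cases hjk : j = k
    · rw [if_pos hjk]
      have : ∀ y : S4, (y : E5) j * dd f y (Jf (ee j) (ee k) y) = 0 := by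
        intro y
        rw [hjk]
        unfold Jf
        rw [sub_self, dd_zero, mul_zero]
      simp only [this, integral_zero]
    · rw [if_neg hjk]
      have hjs : Sm (fun y : S4 => (y : E5) j) := by
        have := sm_inner (ee j)
        simpa only [inner_ee'] using this
      have h1 := integral_dd_Jf (sm_mul hjs hf) (norm_ee j) (norm_ee k) (inner_ee_ee hjk)
      have h2 : ∀ y : S4, dd (fun y : S4 => (y : E5) j * f y) y (Jf (ee j) (ee k) y) =
          (y : E5) j * dd f y (Jf (ee j) (ee k) y) - (y : E5) k * f y := by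
        intro y
        rw [dd_mul hjs hf]
        have h3 : dd (fun y : S4 => (y : E5) j) y (Jf (ee j) (ee k) y) = - (y : E5) k := by
          have h4 := dd_inner (ee j) y (Jf (ee j) (ee k) y)
          simp only [inner_ee'] at h4
          rw [h4]
          unfold Jf
          have h5 : ⟪(y : E5), ⟪ee j, (y : E5)⟫_ℝ • ee k - ⟪ee k, (y : E5)⟫_ℝ • ee j⟫_ℝ = 0 := by
            rw [inner_sub_right, inner_smul_right, inner_smul_right, inner_ee, inner_ee, inner_ee',
              inner_ee']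
            ring
          rw [h5, inner_ee', inner_ee']
          have h6 : ((y : E5) j • ee k - (y : E5) k • ee j) j =
              (y : E5) j * (ee k) j - (y : E5) k * (ee j) j := by
            simp [smul_eq_mul]
          rw [h6, ee_apply, ee_apply, if_neg hjk, if_pos rfl]
          ring
        rw [h3]
        ring
      simp only [h2] at h1
      rw [integral_sub] at h1
      · linarith
      · exact integrable_cont ((hcoord j).mul (continuous_dd_field hf (continuous_Jf _ _)))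
      · exact integrable_cont ((hcoord k).mul hfc)
  simp only [hpt]
  rw [integral_finsetSum]
  · rw [Finset.sum_congr rfl fun j _ => hint j]
    simp only [Finset.sum_ite, Finset.sum_const_zero, Finset.sum_const, zero_add]
    have : ∀ k : Fin 5, (Finset.filter (fun x : Fin 5 => ¬x = k) Finset.univ).card = 4 := by
      decide
    rw [this k]
    simp
  · intro j _
    exact integrable_cont ((hcoord j).mul (continuous_dd_field hf (continuous_Jf _ _)))

/-- the divergence of a vector field on the sphere (with values in `ℝ^5`) -/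
noncomputable def dv (Z : S4 → E5) (x : S4) : ℝ := ∑ i : Fin 5, dd (fun z => Z z i) x (ee i)

/-- smooth vector field with values in `ℝ^5` -/
def SmV (Z : S4 → E5) : Prop := ∀ i : Fin 5, Sm (fun x => Z x i)

theorem SmV.continuous {Z : S4 → E5} (hZ : SmV Z) : Continuous Z := by
  have h : Z = fun x => ∑ i : Fin 5, Z x i • ee i := by
    funext x; exact (sum_ee (Z x)).symm
  rw [h]
  exact continuous_finsetSum _ fun i _ => (continuous_of_sm (hZ i)).smul continuous_const

theorem continuous_dv {Z : S4 → E5} (hZ : SmV Z) : Continuous (dv Z) :=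
  continuous_finsetSum _ fun i _ => continuous_of_sm (sm_dd (hZ i) (ee i))

/-- **Divergence theorem** on the sphere. -/
theorem integral_dv {Z : S4 → E5} (hZ : SmV Z) :
    ∫ y, dv Z y ∂sig = 4 * ∫ y, ⟪(y : E5), Z y⟫_ℝ ∂sig := by
  unfold dv
  rw [integral_finsetSum _ fun i _ => integrable_cont (continuous_of_sm (sm_dd (hZ i) (ee i)))]
  rw [Finset.sum_congr rfl fun i _ => integral_sum_dd (hZ i) i, ← Finset.mul_sum]
  congr 1
  have hcoord : ∀ j : Fin 5, Continuous fun y : S4 => (y : E5) j := by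
    intro j
    have h1 : Continuous fun v : E5 => v j := by fun_prop
    exact h1.comp continuous_subtype_val
  have h := integral_finsetSum (μ := sig) Finset.univ
    (f := fun (i : Fin 5) (y : S4) => (y : E5) i * Z y i)
    (fun i _ => integrable_cont ((hcoord i).mul (continuous_of_sm (hZ i))))
  rw [← h]
  congr 1
  funext y
  exact sum_mul (y : E5) (Z y)

theorem integral_dv_tangent {Z : S4 → E5} (hZ : SmV Z) (ht : ∀ x : S4, ⟪(x : E5), Z x⟫_ℝ = 0) :
    ∫ y, dv Z y ∂sig = 0 := by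
  rw [integral_dv hZ]
  simp [ht]

end Pool.Agent.Helper82_Vir
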