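import Mathlib
import Pool.Agent.Helper82_Vir.Rot

set_option autoImplicit false

/-!
# Self-adjointness of the Paneitz operator and the bubble kernels
-/

namespace Pool.Agent.Helper82_Vir

open Pool.Agent.Helper42_Paneitz
open scoped Manifold ContDiff InnerProductSpace Topology Pointwise
open Filter MeasureTheory Set

theorem integral_mul_lap {u h : S4 → ℝ} (hu : Sm u) (hh : Sm h) :
    ∫ y, h y * sphLaplacian u y ∂sig =
      - ∫ y, ∑ i : Fin 5, dd h y (ee i) * dd u y (ee i) ∂sig := by
  have hZ : SmV (fun x => ∑ i : Fin 5, (h x * dd u x (ee i)) • ee i) := by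
    intro j
    have h1 : (fun x : S4 => (∑ i : Fin 5, (h x * dd u x (ee i)) • ee i) j) =
        fun x => h x * dd u x (ee j) := by
      funext x
      simp [Pi.single_apply]
    rw [h1]
    exact sm_mul hh (sm_dd hu _)
  have hc : ∀ (x : S4) (j : Fin 5), (∑ i : Fin 5, (h x * dd u x (ee i)) • ee i) j =
      h x * dd u x (ee j) := by
    intro x j; simp [Pi.single_apply]
  have ht : ∀ x : S4, ⟪(x : E5), ∑ i : Fin 5, (h x * dd u x (ee i)) • ee i⟫_ℝ = 0 := by
    intro x
    rw [← sum_mul]
    simp only [hc]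
    have : ∑ i : Fin 5, (x : E5) i * (h x * dd u x (ee i)) =
        h x * ∑ i : Fin 5, (x : E5) i * dd u x (ee i) := by
      rw [Finset.mul_sum]; exact Finset.sum_congr rfl fun i _ => by ring
    rw [this, ← dd_eq_sum, dd_self hu, mul_zero]
  have h1 := integral_dv_tangent hZ ht
  have h2 : ∀ y : S4, dv (fun x => ∑ i : Fin 5, (h x * dd u x (ee i)) • ee i) y =
      h y * sphLaplacian u y + ∑ i : Fin 5, dd h y (ee i) * dd u y (ee i) := by
    intro y
    unfold dv
    simp only [hc]
    rw [sphLaplacian_eq hu, Finset.mul_sum, ← Finset.sum_add_distrib]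
    refine Finset.sum_congr rfl fun i _ => ?_
    rw [dd_mul hh (sm_dd hu _)]
    ring
  simp only [h2] at h1
  rw [integral_add] at h1
  · linarith
  · exact integrable_cont ((continuous_of_sm hh).mul (continuous_of_sm hu.sphLaplacian))
  · exact integrable_cont (continuous_finsetSum _ fun i _ =>
      (continuous_of_sm (sm_dd hh _)).mul (continuous_of_sm (sm_dd hu _)))

theorem integral_lap_symm {u h : S4 → ℝ} (hu : Sm u) (hh : Sm h) :
    ∫ y, h y * sphLaplacian u y ∂sig = ∫ y, u y * sphLaplacian h y ∂sig := by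
  rw [integral_mul_lap hu hh, integral_mul_lap hh hu]
  congr 2
  funext y
  exact Finset.sum_congr rfl fun i _ => by ring

theorem integral_paneitz_symm {u h : S4 → ℝ} (hu : Sm u) (hh : Sm h) :
    ∫ y, h y * paneitz u y ∂sig = ∫ y, u y * paneitz h y ∂sig := by
  have hui := continuous_of_sm hu
  have hhi := continuous_of_sm hh
  have hlu := continuous_of_sm hu.sphLaplacian
  have hlh := continuous_of_sm hh.sphLaplacian
  have hllu := continuous_of_sm hu.sphLaplacian.sphLaplacian
  have hllh := continuous_of_sm hh.sphLaplacian.sphLaplacian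
  have e1 : ∀ y, h y * paneitz u y =
      h y * sphLaplacian (sphLaplacian u) y - 2 * (h y * sphLaplacian u y) := by
    intro y; unfold paneitz; ring
  have e2 : ∀ y, u y * paneitz h y =
      u y * sphLaplacian (sphLaplacian h) y - 2 * (u y * sphLaplacian h y) := by
    intro y; unfold paneitz; ring
  simp only [e1, e2]
  rw [integral_sub (integrable_cont (hhi.fun_mul hllu)) ((integrable_cont (hhi.fun_mul hlu)).const_mul 2),
    integral_sub (integrable_cont (hui.fun_mul hllh)) ((integrable_cont (hui.fun_mul hlh)).const_mul 2),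
    integral_const_mul, integral_const_mul, integral_lap_symm hu hh,
    integral_lap_symm hu.sphLaplacian hh, integral_lap_symm hh.sphLaplacian hu]
  congr 2
  funext y
  ring

theorem integral_paneitz {u : S4 → ℝ} (hu : Sm u) : ∫ y, paneitz u y ∂sig = 0 := by
  have h := integral_paneitz_symm hu (sm_const 1)
  simp only [one_mul, paneitz_const, mul_zero, integral_zero] at h
  exact h

/-- total mass -/
noncomputable def msig : ℝ := (sig univ).toReal

theorem integral_const_sig (c : ℝ) : ∫ _ : S4, c ∂sig = msig * c := by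
  rw [integral_const, smul_eq_mul]; rfl

theorem sig_ne_zero : sig ≠ 0 := by
  unfold sig
  exact Measure.toSphere_ne_zero _

theorem msig_pos : 0 < msig := by
  unfold msig
  exact ENNReal.toReal_pos (by simpa using sig_ne_zero) (measure_ne_top _ _)

/-- the bubble kernel -/
noncomputable def bub (r : ℝ) (x y : S4) : ℝ :=
  (1 - r ^ 2) ^ 2 / (1 - r * ⟪(x : E5), (y : E5)⟫_ℝ) ^ 4

theorem inner_le_one (x y : S4) : ⟪(x : E5), (y : E5)⟫_ℝ ≤ 1 := by
  have := real_inner_le_norm (x : E5) (y : E5)
  rw [S4_norm, S4_norm] at this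
  linarith

theorem neg_one_le_inner (x y : S4) : -1 ≤ ⟪(x : E5), (y : E5)⟫_ℝ := by
  have := abs_real_inner_le_norm (x : E5) (y : E5)
  rw [S4_norm, S4_norm] at this
  have := (abs_le.1 this).1
  linarith

theorem den_pos {r : ℝ} (h0 : 0 < r) (h1 : r < 1) (x y : S4) :
    0 < 1 - r * ⟪(x : E5), (y : E5)⟫_ℝ := by
  have := inner_le_one x y
  nlinarith

theorem norm_smul_lt {r : ℝ} (h0 : 0 < r) (h1 : r < 1) (x : S4) : ‖r • (x : E5)‖ < 1 := by
  rw [norm_smul, S4_norm, mul_one, Real.norm_of_nonneg h0.le]; exact h1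

theorem paneitz_zlog {r : ℝ} (h0 : 0 < r) (h1 : r < 1) (x y : S4) :
    paneitz (zlog (r • (x : E5))) y = 6 * (bub r x y - 1) := by
  rw [(zlog_facts _ (norm_smul_lt h0 h1 x)).2 y]
  unfold bub
  rw [norm_smul, S4_norm, mul_one, Real.norm_of_nonneg h0.le, real_inner_smul_left]

theorem continuous_inner_S4 : Continuous fun p : S4 × S4 => ⟪(p.1 : E5), (p.2 : E5)⟫_ℝ :=
  (continuous_subtype_val.comp continuous_fst).inner (continuous_subtype_val.comp continuous_snd)

theorem continuous_bub {r : ℝ} (h0 : 0 < r) (h1 : r < 1) :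
    Continuous fun p : S4 × S4 => bub r p.1 p.2 := by
  unfold bub
  refine Continuous.div continuous_const ?_ fun p => pow_ne_zero _ (den_pos h0 h1 _ _).ne'
  exact (continuous_const.sub (continuous_const.mul continuous_inner_S4)).pow 4

theorem continuous_bub_right {r : ℝ} (h0 : 0 < r) (h1 : r < 1) (x : S4) :
    Continuous fun y => bub r x y := by
  unfold bub
  refine Continuous.div continuous_const ?_ fun p => pow_ne_zero _ (den_pos h0 h1 _ _).ne'
  exact (continuous_const.sub (continuous_const.fun_mul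
    (continuous_const.inner continuous_subtype_val))).pow 4

theorem bub_nonneg (r : ℝ) (x y : S4) : 0 ≤ bub r x y := by unfold bub; positivity

theorem integral_bub {r : ℝ} (h0 : 0 < r) (h1 : r < 1) (x : S4) :
    ∫ y, bub r x y ∂sig = msig := by
  have h := integral_paneitz (sm_zlog _ (norm_smul_lt h0 h1 x))
  simp only [paneitz_zlog h0 h1] at h
  rw [integral_const_mul, integral_sub (integrable_cont (continuous_bub_right h0 h1 x))
    (integrable_const 1), integral_const_sig] at h
  linarith

/-- The kernel identity, before differentiation. -/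
theorem integral_zlog {u : S4 → ℝ} (hu : Sm u) {r : ℝ} (h0 : 0 < r) (h1 : r < 1) (x : S4) :
    ∫ y, zlog (r • (x : E5)) y * paneitz u y ∂sig =
      6 * ∫ y, bub r x y * u y ∂sig - 6 * ∫ y, u y ∂sig := by
  rw [integral_paneitz_symm hu (sm_zlog _ (norm_smul_lt h0 h1 x))]
  simp only [paneitz_zlog h0 h1]
  have hb := continuous_bub_right h0 h1 x
  have hc := continuous_of_sm hu
  have e : ∀ y, u y * (6 * (bub r x y - 1)) = 6 * (bub r x y * u y) - 6 * u y := by
    intro y; ring
  simp only [e]
  rw [integral_sub ((integrable_cont (hb.fun_mul hc)).const_mul 6) ((integrable_cont hc).const_mul 6),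
    integral_const_mul, integral_const_mul]

theorem inner_rot_rot {p q : E5} (hp : ‖p‖ = 1) (hq : ‖q‖ = 1) (hpq : ⟪p, q⟫_ℝ = 0) (t : ℝ)
    (y z : E5) : ⟪rot p q t y, rot p q t z⟫_ℝ = ⟪y, z⟫_ℝ :=
  (rotE hp hq hpq t).inner_map_map y z

theorem zlog_apply (a : E5) (y : S4) : zlog a y = -Real.log (1 - ⟪a, (y : E5)⟫_ℝ) := rfl

/-- **Kernel identity** for unit tangent vectors. -/
theorem kernel_unit {u : S4 → ℝ} (hu : Sm u) {r : ℝ} (h0 : 0 < r) (h1 : r < 1) (x : S4) {q : E5}
    (hq : ‖q‖ = 1) (hxq : ⟪(x : E5), q⟫_ℝ = 0) :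
    ∫ y, r * ⟪q, (y : E5)⟫_ℝ / (1 - r * ⟪(x : E5), (y : E5)⟫_ℝ) * paneitz u y ∂sig =
      6 * ∫ y, bub r x y * dd u y (Jf (x : E5) q (y : E5)) ∂sig := by
  have hx := S4_norm x
  set X : ℝ → S4 := fun t => act (rotE hx hq hxq t) x with hX
  have hXc : ∀ t, (X t : E5) = rot (x : E5) q t (x : E5) := fun t => rfl
  have hP : Continuous (paneitz u) := continuous_of_sm hu.paneitz
  have huc := continuous_of_sm hu
  -- left side
  have hJb : ∀ z : E5, ‖z‖ = 1 → ‖Jf (x : E5) q z‖ ≤ 2 := by
    intro z hz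
    unfold Jf
    refine (norm_sub_le _ _).trans ?_
    rw [norm_smul, norm_smul, hx, hq, Real.norm_eq_abs, Real.norm_eq_abs]
    have a1 := abs_real_inner_le_norm (x : E5) z
    have a2 := abs_real_inner_le_norm q z
    rw [hx, hz] at a1
    rw [hq, hz] at a2
    linarith
  obtain ⟨C, hC⟩ := isCompact_univ.exists_bound_of_continuousOn (hP.continuousOn (s := univ))
  have hden : ∀ t (y : S4), 0 < 1 - r * ⟪rot (x : E5) q t (x : E5), (y : E5)⟫_ℝ :=
    fun t y => den_pos h0 h1 (X t) y
  have hden2 : ∀ t (y : S4), 1 - r ≤ 1 - r * ⟪rot (x : E5) q t (x : E5), (y : E5)⟫_ℝ := by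
    intro t y
    have := inner_le_one (X t) y
    rw [hXc] at this
    nlinarith
  have hdl : ∀ (y : S4) (t : ℝ), HasDerivAt (fun t => zlog (r • (X t : E5)) y * paneitz u y)
      (r * ⟪Jf (x : E5) q (rot (x : E5) q t (x : E5)), (y : E5)⟫_ℝ /
        (1 - r * ⟪rot (x : E5) q t (x : E5), (y : E5)⟫_ℝ) * paneitz u y) t := by
    intro y t
    have d1 := hasDerivAt_rot hx hq hxq (x : E5) t
    have d2 : HasDerivAt (fun t => ⟪rot (x : E5) q t (x : E5), (y : E5)⟫_ℝ)
        ⟪Jf (x : E5) q (rot (x : E5) q t (x : E5)), (y : E5)⟫_ℝ t := by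
      have := d1.inner ℝ (hasDerivAt_const t (y : E5))
      simpa using this
    have d3 := ((d2.const_mul r).const_sub 1).log (hden t y).ne'
    have d4 := (d3.neg).mul_const (paneitz u y)
    have e : (fun t => zlog (r • (X t : E5)) y * paneitz u y) = fun t =>
        -Real.log (1 - r * ⟪rot (x : E5) q t (x : E5), (y : E5)⟫_ℝ) * paneitz u y := by
      funext s
      rw [zlog_apply, hXc, real_inner_smul_left]
    rw [e]
    refine d4.congr_deriv ?_
    ring
  have hcontr : ∀ t, Continuous fun y : S4 => zlog (r • (X t : E5)) y * paneitz u y :=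
    fun t => (continuous_of_sm (sm_zlog _ (norm_smul_lt h0 h1 _))).mul hP
  have hL := (hasDerivAt_integral_of_dominated_loc_of_deriv_le (μ := sig) (𝕜 := ℝ)
    (F := fun t y => zlog (r • (X t : E5)) y * paneitz u y)
    (F' := fun t y => r * ⟪Jf (x : E5) q (rot (x : E5) q t (x : E5)), (y : E5)⟫_ℝ /
        (1 - r * ⟪rot (x : E5) q t (x : E5), (y : E5)⟫_ℝ) * paneitz u y) (x₀ := 0) (s := univ)
    (bound := fun _ => r * 2 / (1 - r) * C)
    univ_mem (Eventually.of_forall fun t => (hcontr t).aestronglyMeasurable)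
    (integrable_cont (hcontr 0)) (by
      refine Continuous.aestronglyMeasurable ?_
      refine Continuous.mul (Continuous.div ?_ ?_ fun y => (hden 0 y).ne') hP
      · exact continuous_const.mul (continuous_const.inner continuous_subtype_val)
      · exact continuous_const.sub (continuous_const.mul
          (continuous_const.inner continuous_subtype_val)))
    (Eventually.of_forall fun y t _ => by
      rw [norm_mul]
      refine mul_le_mul ?_ (hC y (mem_univ _)) (norm_nonneg _) (by
        have : 0 < 1 - r := by linarith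
        positivity)
      rw [norm_div, norm_mul, Real.norm_of_nonneg h0.le, Real.norm_of_nonneg (hden t y).le]
      have a1 : ‖⟪Jf (x : E5) q (rot (x : E5) q t (x : E5)), (y : E5)⟫_ℝ‖ ≤ 2 := by
        refine (abs_real_inner_le_norm _ _).trans ?_
        rw [S4_norm, mul_one]
        exact hJb _ (by rw [norm_rot hx hq hxq, hx])
      have : 0 < 1 - r := by linarith
      refine div_le_div₀ (by positivity) ?_ this (hden2 t y)
      exact mul_le_mul_of_nonneg_left a1 h0.le)
    (integrable_const _)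
    (Eventually.of_forall fun y t _ => hdl y t)).2
  -- right side
  have hbr : ∀ t, ∫ y, bub r (X t) y * u y ∂sig =
      ∫ y, bub r x y * u (act (rotE hx hq hxq t) y) ∂sig := by
    intro t
    rw [← integral_act (rotE hx hq hxq t) ((continuous_bub_right h0 h1 _).fun_mul huc)]
    congr 1
    funext y
    congr 1
    unfold bub
    have : ⟪(X t : E5), (act (rotE hx hq hxq t) y : E5)⟫_ℝ = ⟪(x : E5), (y : E5)⟫_ℝ :=
      (rotE hx hq hxq t).inner_map_map _ _
    rw [this]
  have hcd := continuous_dd_field hu (continuous_Jf (x : E5) q)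
  obtain ⟨C2, hC2⟩ := isCompact_univ.exists_bound_of_continuousOn (hcd.continuousOn (s := univ))
  have hbc := continuous_bub_right h0 h1 x
  obtain ⟨C3, hC3⟩ := isCompact_univ.exists_bound_of_continuousOn (hbc.continuousOn (s := univ))
  have hd : ∀ (y : S4) (t : ℝ), HasDerivAt (fun t => bub r x y * u (act (rotE hx hq hxq t) y))
      (bub r x y * dd u (act (rotE hx hq hxq t) y)
        (Jf (x : E5) q (act (rotE hx hq hxq t) y : E5))) t := by
    intro y t
    have g1 := hasDerivAt_along hu (c := fun t => rot (x : E5) q t y)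
      (x := act (rotE hx hq hxq t) y) (t := t) rfl (hasDerivAt_rot hx hq hxq (y : E5) t)
    have g2 : (fun t => u (act (rotE hx hq hxq t) y)) = fun t => radialExt u (rot (x : E5) q t y) := by
      funext s
      exact (radialExt_coe u (act (rotE hx hq hxq s) y)).symm
    have g3 : HasDerivAt (fun t => u (act (rotE hx hq hxq t) y))
        (dd u (act (rotE hx hq hxq t) y) (Jf (x : E5) q (act (rotE hx hq hxq t) y : E5))) t := by
      rw [g2]; exact g1
    exact g3.const_mul _
  have hR := (hasDerivAt_integral_of_dominated_loc_of_deriv_le (μ := sig) (𝕜 := ℝ)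
    (F := fun t y => bub r x y * u (act (rotE hx hq hxq t) y))
    (F' := fun t y => bub r x y * dd u (act (rotE hx hq hxq t) y)
        (Jf (x : E5) q (act (rotE hx hq hxq t) y : E5))) (x₀ := 0) (s := univ)
    (bound := fun _ => C3 * C2)
    univ_mem
    (Eventually.of_forall fun t => (hbc.mul (huc.comp (continuous_act _))).aestronglyMeasurable)
    (integrable_cont (hbc.mul (huc.comp (continuous_act _))))
    ((hbc.mul (hcd.comp (continuous_act _))).aestronglyMeasurable)
    (Eventually.of_forall fun y t _ => by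
      rw [norm_mul]
      exact mul_le_mul (hC3 _ (mem_univ _)) (hC2 _ (mem_univ _)) (norm_nonneg _)
        ((norm_nonneg _).trans (hC3 y (mem_univ _))))
    (integrable_const _)
    (Eventually.of_forall fun y t _ => hd y t)).2
  -- comparison
  have hEq : (fun t => ∫ y, zlog (r • (X t : E5)) y * paneitz u y ∂sig) =
      fun t => 6 * (∫ y, bub r x y * u (act (rotE hx hq hxq t) y) ∂sig) - 6 * ∫ y, u y ∂sig := by
    funext t
    rw [integral_zlog hu h0 h1 (X t), hbr t]
  rw [hEq] at hL
  have hR2 := (hR.const_mul 6).sub_const (6 * ∫ y, u y ∂sig)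
  have h7 := hL.unique hR2
  have h8 : ∀ y : S4, act (rotE hx hq hxq 0) y = y := by
    intro y
    apply Subtype.ext
    show rot (x : E5) q 0 (y : E5) = y
    simp [rot]
  have h9 : rot (x : E5) q 0 (x : E5) = (x : E5) := by simp [rot]
  have h10 : Jf (x : E5) q (x : E5) = q := by
    unfold Jf
    rw [real_inner_self_eq_norm_sq, hx, real_inner_comm, hxq]
    simp
  simp only [h8, h9, h10] at h7
  exact h7

/-- the kernel against constants -/
theorem kernel_unit_const {r : ℝ} (h0 : 0 < r) (h1 : r < 1) (x : S4) {q : E5}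
    (hq : ‖q‖ = 1) (hxq : ⟪(x : E5), q⟫_ℝ = 0) :
    ∫ y, r * ⟪q, (y : E5)⟫_ℝ / (1 - r * ⟪(x : E5), (y : E5)⟫_ℝ) ∂sig = 0 := by
  have hx := S4_norm x
  set a : E5 := r • (x : E5) with ha
  have hs : Sm (zlog a) := sm_zlog _ (norm_smul_lt h0 h1 x)
  have h := integral_dd_Jf hs hx hq hxq
  have h2 : ∀ y : S4, dd (zlog a) y (Jf (x : E5) q (y : E5)) =
      - (r * ⟪q, (y : E5)⟫_ℝ / (1 - r * ⟪(x : E5), (y : E5)⟫_ℝ)) := by
    intro y
    have hy := S4_ne_zero y
    have hd := den_pos h0 h1 x y
    -- derivative along the rotation curve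
    have d1 := hasDerivAt_rot hx hq hxq (y : E5) 0
    have h9 : rot (x : E5) q 0 (y : E5) = (y : E5) := by simp [rot]
    have d2 := hasDerivAt_along hs (c := fun t => rot (x : E5) q t (y : E5)) (x := y) (t := 0)
      h9 d1
    have d3 : HasDerivAt (fun t => ⟪(x : E5), rot (x : E5) q t (y : E5)⟫_ℝ)
        ⟪(x : E5), Jf (x : E5) q (rot (x : E5) q 0 (y : E5))⟫_ℝ 0 := by
      have := (hasDerivAt_const (0 : ℝ) (x : E5)).inner ℝ d1
      simpa using this
    have d4 := (((d3.const_mul r).const_sub 1).log (by rw [h9]; exact hd.ne')).neg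
    have e : (fun t => radialExt (zlog a) (rot (x : E5) q t (y : E5))) = fun t =>
        -Real.log (1 - r * ⟪(x : E5), rot (x : E5) q t (y : E5)⟫_ℝ) := by
      funext s
      have := radialExt_coe (zlog a) (act (rotE hx hq hxq s) y)
      have e2 : (act (rotE hx hq hxq s) y : E5) = rot (x : E5) q s (y : E5) := rfl
      rw [e2] at this
      rw [this, zlog_apply, e2, ha, real_inner_smul_left]
    rw [e] at d2
    have h11 := d2.unique d4
    rw [h9] at h11
    rw [h11]
    have h12 : ⟪(x : E5), Jf (x : E5) q (y : E5)⟫_ℝ = - ⟪q, (y : E5)⟫_ℝ := by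
      unfold Jf
      rw [inner_sub_right, inner_smul_right, inner_smul_right, hxq, real_inner_self_eq_norm_sq, hx]
      ring
    rw [h12]
    ring
  simp only [h2, integral_neg] at h
  linarith

/-- **Kernel identity** for arbitrary tangent vectors `w` at `x`. -/
theorem kernel_id {u : S4 → ℝ} (hu : Sm u) {r : ℝ} (h0 : 0 < r) (h1 : r < 1) (x : S4) {w : E5}
    (hxw : ⟪(x : E5), w⟫_ℝ = 0) :
    ∫ y, r * ⟪w, (y : E5)⟫_ℝ / (1 - r * ⟪(x : E5), (y : E5)⟫_ℝ) * (paneitz u y + 6) ∂sig =
      6 * ∫ y, bub r x y * dd u y (Jf (x : E5) w (y : E5)) ∂sig := by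
  by_cases hw : w = 0
  · have : ∀ y : E5, Jf (x : E5) 0 y = 0 := by intro y; simp [Jf]
    subst hw
    simp [this, dd_zero]
  · have hn := norm_pos_of_ne hw
    set q : E5 := ‖w‖⁻¹ • w with hqd
    have hq : ‖q‖ = 1 := by
      rw [hqd, norm_smul, norm_inv, norm_norm]; exact inv_mul_cancel₀ hn.ne'
    have hwq : w = ‖w‖ • q := by
      rw [hqd, smul_smul, mul_inv_cancel₀ hn.ne', one_smul]
    have hxq : ⟪(x : E5), q⟫_ℝ = 0 := by rw [hqd, inner_smul_right, hxw, mul_zero]
    have k1 := kernel_unit hu h0 h1 x hq hxq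
    have k2 := kernel_unit_const h0 h1 x hq hxq
    have e1 : ∀ y : S4, r * ⟪w, (y : E5)⟫_ℝ / (1 - r * ⟪(x : E5), (y : E5)⟫_ℝ) *
        (paneitz u y + 6) =
        ‖w‖ * (r * ⟪q, (y : E5)⟫_ℝ / (1 - r * ⟪(x : E5), (y : E5)⟫_ℝ) * paneitz u y) +
        (6 * ‖w‖) * (r * ⟪q, (y : E5)⟫_ℝ / (1 - r * ⟪(x : E5), (y : E5)⟫_ℝ)) := by
      intro y
      have : ⟪w, (y : E5)⟫_ℝ = ‖w‖ * ⟪q, (y : E5)⟫_ℝ := by
        conv_lhs => rw [hwq]
        rw [real_inner_smul_left]
      rw [this]
      ring
    have e2 : ∀ y : S4, bub r x y * dd u y (Jf (x : E5) w (y : E5)) =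
        ‖w‖ * (bub r x y * dd u y (Jf (x : E5) q (y : E5))) := by
      intro y
      have : Jf (x : E5) w (y : E5) = ‖w‖ • Jf (x : E5) q (y : E5) := by
        conv_lhs => rw [hwq]
        unfold Jf
        rw [real_inner_smul_left]
        module
      rw [this, dd_smul]
      ring
    simp only [e1, e2]
    have hc : Continuous fun y : S4 => r * ⟪q, (y : E5)⟫_ℝ /
        (1 - r * ⟪(x : E5), (y : E5)⟫_ℝ) := by
      refine Continuous.div ?_ ?_ fun y => (den_pos h0 h1 x y).ne'
      · exact continuous_const.mul (continuous_const.inner continuous_subtype_val)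
      · exact continuous_const.sub (continuous_const.mul
          (continuous_const.inner continuous_subtype_val))
    rw [integral_add ((integrable_cont (hc.fun_mul (continuous_of_sm hu.paneitz))).const_mul _)
      ((integrable_cont hc).const_mul _), integral_const_mul, integral_const_mul,
      integral_const_mul, k1, k2]
    ring

end Pool.Agent.Helper82_Vir
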