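import Mathlib
import Pool.Agent.Helper82_Vir.Kern

set_option autoImplicit false

/-!
# The virial inequality
-/

namespace Pool.Agent.Helper82_Vir

open Pool.Agent.Helper42_Paneitz
open scoped Manifold ContDiff InnerProductSpace Topology Pointwise
open Filter MeasureTheory Set

theorem sig_singleton (x : S4) : sig {x} = 0 := by
  unfold sig
  rw [Measure.toSphere_apply' _ (measurableSet_singleton x)]
  have h : Ioo (0 : ℝ) 1 • (((↑) : S4 → E5) '' {x}) ⊆ ((ℝ ∙ (x : E5)) : Set E5) := by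
    rintro _ ⟨t, _, z, ⟨y, hy, rfl⟩, rfl⟩
    rw [mem_singleton_iff.1 hy]
    exact Submodule.mem_span_singleton.2 ⟨t, rfl⟩
  have hne : (ℝ ∙ (x : E5)) ≠ ⊤ := by
    intro htop
    have h1 : Module.finrank ℝ (ℝ ∙ (x : E5)) = 1 := finrank_span_singleton (S4_ne_zero x)
    rw [htop, finrank_top, finrank_euclideanSpace_fin] at h1
    omega
  have h0 := Measure.addHaar_submodule (volume : Measure E5) _ hne
  have h2 : (volume : Measure E5) (Ioo (0 : ℝ) 1 • (((↑) : S4 → E5) '' {x})) = 0 :=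
    measure_mono_null h h0
  rw [h2, mul_zero]

theorem ae_ne (x : S4) : ∀ᵐ y ∂sig, y ≠ x := by
  rw [ae_iff]
  simpa using sig_singleton x

theorem exists_bound {f : S4 → ℝ} (hf : Continuous f) : ∃ C : ℝ, 0 ≤ C ∧ ∀ x, |f x| ≤ C := by
  obtain ⟨C, hC⟩ := isCompact_univ.exists_bound_of_continuousOn (hf.continuousOn (s := univ))
  exact ⟨max C 0, le_max_right _ _, fun x => (hC x (mem_univ _)).trans (le_max_left _ _)⟩

theorem exists_bound2 {f : S4 × S4 → ℝ} (hf : Continuous f) :
    ∃ C : ℝ, 0 ≤ C ∧ ∀ x, |f x| ≤ C := by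
  obtain ⟨C, hC⟩ := isCompact_univ.exists_bound_of_continuousOn (hf.continuousOn (s := univ))
  exact ⟨max C 0, le_max_right _ _, fun x => (hC x (mem_univ _)).trans (le_max_left _ _)⟩

theorem dist_sq (x y : S4) : dist y x ^ 2 = 2 * (1 - ⟪(x : E5), (y : E5)⟫_ℝ) := by
  rw [Subtype.dist_eq, dist_eq_norm, norm_sub_sq_real, S4_norm, S4_norm, real_inner_comm]
  ring

theorem den_ge {r : ℝ} (h0 : 0 < r) (h1 : r < 1) {d : ℝ} (hd : d ≤ 1) (x y : S4)
    (h : d ≤ 1 - ⟪(x : E5), (y : E5)⟫_ℝ) : d ≤ 1 - r * ⟪(x : E5), (y : E5)⟫_ℝ := by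
  rcases le_or_gt 0 ⟪(x : E5), (y : E5)⟫_ℝ with hs | hs
  · nlinarith
  · nlinarith

/-- approximate identity -/
theorem tendsto_bub (x : S4) {G : S4 → ℝ} (hG : Continuous G) :
    Tendsto (fun r => ∫ y, bub r x y * G y ∂sig) (𝓝[<] 1) (𝓝 (msig * G x)) := by
  rw [Metric.tendsto_nhds]
  intro ε hε
  obtain ⟨C, hC0, hC⟩ := exists_bound hG
  have hm := msig_pos
  have hε2 : 0 < ε / (2 * msig) := by positivity
  obtain ⟨δ, hδ, hδG⟩ := Metric.continuous_iff.1 hG x (ε / (2 * msig)) hε2
  set d := min (δ ^ 2 / 2) 1 with hd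
  have hd0 : 0 < d := by positivity
  have hd1 : d ≤ 1 := min_le_right _ _
  have hlim : Tendsto (fun r : ℝ => (1 - r ^ 2) ^ 2 / d ^ 4 * (2 * C) * msig) (𝓝[<] 1) (𝓝 0) := by
    have hc : Continuous fun r : ℝ => (1 - r ^ 2) ^ 2 / d ^ 4 * (2 * C) * msig := by fun_prop
    have := (hc.tendsto 1).mono_left (nhdsWithin_le_nhds (s := Iio 1))
    simpa using this
  have hev1 : ∀ᶠ r : ℝ in 𝓝[<] 1, (1 - r ^ 2) ^ 2 / d ^ 4 * (2 * C) * msig < ε / 2 :=
    hlim.eventually (gt_mem_nhds (half_pos hε))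
  have hev2 : ∀ᶠ r : ℝ in 𝓝[<] 1, 0 < r :=
    (lt_mem_nhds (show (0 : ℝ) < 1 by norm_num)).filter_mono nhdsWithin_le_nhds
  filter_upwards [hev1, hev2, self_mem_nhdsWithin] with r hr1 hr0 hr
  have hr' : r < 1 := hr
  have hb := continuous_bub_right hr0 hr' x
  have e1 : (∫ y, bub r x y * G y ∂sig) - msig * G x = ∫ y, bub r x y * (G y - G x) ∂sig := by
    have e2 : ∀ y, bub r x y * (G y - G x) = bub r x y * G y - bub r x y * G x := by
      intro y; ring
    simp only [e2]
    rw [integral_sub (integrable_cont (hb.fun_mul hG))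
      (integrable_cont (hb.fun_mul continuous_const)), integral_mul_const, integral_bub hr0 hr']
  rw [Real.dist_eq, e1]
  have hpt : ∀ y, ‖bub r x y * (G y - G x)‖ ≤
      bub r x y * (ε / (2 * msig)) + (1 - r ^ 2) ^ 2 / d ^ 4 * (2 * C) := by
    intro y
    have hb0 := bub_nonneg r x y
    rw [norm_mul, Real.norm_of_nonneg hb0, Real.norm_eq_abs]
    by_cases hy : 1 - ⟪(x : E5), (y : E5)⟫_ℝ < d
    · have h1 : dist y x < δ := by
        have h2 := dist_sq x y
        have h3 : dist y x ^ 2 < δ ^ 2 := by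
          rw [h2]
          have : d ≤ δ ^ 2 / 2 := min_le_left _ _
          linarith
        exact lt_of_pow_lt_pow_left₀ 2 hδ.le h3
      have h4 := (hδG y h1).le
      rw [Real.dist_eq] at h4
      have h5 : 0 ≤ (1 - r ^ 2) ^ 2 / d ^ 4 * (2 * C) := by positivity
      have h6 := mul_le_mul_of_nonneg_left h4 hb0
      linarith
    · push Not at hy
      have h1 := den_ge hr0 hr' hd1 x y hy
      have h2 : bub r x y ≤ (1 - r ^ 2) ^ 2 / d ^ 4 := by
        unfold bub
        exact div_le_div_of_nonneg_left (by positivity) (by positivity)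
          (pow_le_pow_left₀ hd0.le h1 4)
      have h3 : |G y - G x| ≤ 2 * C := by
        refine (abs_sub _ _).trans ?_
        have := hC y; have := hC x; linarith
      have h4 := mul_le_mul h2 h3 (abs_nonneg _) (by positivity)
      have h5 : 0 ≤ bub r x y * (ε / (2 * msig)) := by positivity
      linarith
  have hint : Integrable (fun y => bub r x y * (ε / (2 * msig)) +
      (1 - r ^ 2) ^ 2 / d ^ 4 * (2 * C)) sig :=
    integrable_cont ((hb.fun_mul continuous_const).fun_add continuous_const)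
  refine (norm_integral_le_of_norm_le hint (Eventually.of_forall hpt)).trans_lt ?_
  rw [integral_add (integrable_cont (hb.fun_mul continuous_const)) (integrable_const _),
    integral_mul_const, integral_bub hr0 hr', integral_const_sig]
  have h7 : msig * (ε / (2 * msig)) = ε / 2 := by field_simp
  rw [h7, mul_comm msig]
  linarith

theorem integrable2 {f : S4 × S4 → ℝ} (hf : Continuous f) : Integrable f (sig.prod sig) :=
  hf.integrable_of_hasCompactSupport (HasCompactSupport.of_compactSpace f)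

theorem sm_inner_meas {f : S4 → S4 → ℝ} (hf : Continuous fun p : S4 × S4 => f p.1 p.2) :
    StronglyMeasurable fun x => ∫ y, f x y ∂sig :=
  StronglyMeasurable.integral_prod_right (f := f) hf.stronglyMeasurable

theorem cont_slice {f : S4 → S4 → ℝ} (hf : Continuous fun p : S4 × S4 => f p.1 p.2) (x : S4) :
    Continuous fun y => f x y := by
  have := hf.comp (Continuous.prodMk (continuous_const (y := x)) continuous_id)
  exact this

/-- the regularised quotient -/
noncomputable def cr (r : ℝ) (x y : S4) : ℝ :=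
  r * (1 - ⟪(x : E5), (y : E5)⟫_ℝ) / (1 - r * ⟪(x : E5), (y : E5)⟫_ℝ)

theorem cr_nonneg {r : ℝ} (h0 : 0 < r) (h1 : r < 1) (x y : S4) : 0 ≤ cr r x y := by
  unfold cr
  have := inner_le_one x y
  have := den_pos h0 h1 x y
  apply div_nonneg _ this.le
  nlinarith

theorem cr_le {r : ℝ} (h0 : 0 < r) (h1 : r < 1) (x y : S4) : cr r x y ≤ 2 := by
  unfold cr
  have h2 := inner_le_one x y
  have h4 := neg_one_le_inner x y
  have h3 := den_pos h0 h1 x y
  rw [div_le_iff₀ h3]
  nlinarith

theorem continuous_cr {r : ℝ} (h0 : 0 < r) (h1 : r < 1) :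
    Continuous fun p : S4 × S4 => cr r p.1 p.2 := by
  unfold cr
  refine Continuous.div ?_ ?_ fun p => (den_pos h0 h1 _ _).ne'
  · exact continuous_const.fun_mul (continuous_const.sub continuous_inner_S4)
  · exact continuous_const.sub (continuous_const.fun_mul continuous_inner_S4)

theorem tendsto_cr {x y : S4} (hxy : y ≠ x) : Tendsto (fun r => cr r x y) (𝓝[<] 1) (𝓝 1) := by
  have hs : 1 - ⟪(x : E5), (y : E5)⟫_ℝ ≠ 0 := by
    intro h
    have h1 := dist_sq x y
    rw [h, mul_zero] at h1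
    have h2 : dist y x = 0 := by simpa using h1
    exact hxy (dist_eq_zero.1 h2)
  have hc : ContinuousAt (fun r : ℝ => r * (1 - ⟪(x : E5), (y : E5)⟫_ℝ) /
      (1 - r * ⟪(x : E5), (y : E5)⟫_ℝ)) 1 := by
    refine ContinuousAt.div ?_ ?_ (by rw [one_mul]; exact hs)
    · fun_prop
    · fun_prop
  have := hc.tendsto.mono_left (nhdsWithin_le_nhds (s := Iio 1))
  rw [one_mul, one_mul, div_self hs] at this
  exact this

theorem ev_pos : ∀ᶠ r : ℝ in 𝓝[<] 1, 0 < r ∧ r < 1 := by
  have hev2 : ∀ᶠ r : ℝ in 𝓝[<] 1, 0 < r :=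
    (lt_mem_nhds (show (0 : ℝ) < 1 by norm_num)).filter_mono nhdsWithin_le_nhds
  filter_upwards [hev2, self_mem_nhdsWithin] with r h1 h2
  exact ⟨h1, h2⟩

theorem tendsto_cr_int {φ : S4 → S4 → ℝ} (hφ : Continuous fun p : S4 × S4 => φ p.1 p.2) :
    Tendsto (fun r => ∫ x, ∫ y, cr r x y * φ x y ∂sig ∂sig) (𝓝[<] 1)
      (𝓝 (∫ x, ∫ y, φ x y ∂sig ∂sig)) := by
  obtain ⟨C, hC0, hC⟩ := exists_bound2 hφ
  have hjc : ∀ r : ℝ, 0 < r → r < 1 →
      Continuous fun p : S4 × S4 => cr r p.1 p.2 * φ p.1 p.2 :=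
    fun r h0 h1 => (continuous_cr h0 h1).fun_mul hφ
  have hb : ∀ r : ℝ, 0 < r → r < 1 → ∀ x y, ‖cr r x y * φ x y‖ ≤ 2 * C := by
    intro r h0 h1 x y
    rw [norm_mul, Real.norm_of_nonneg (cr_nonneg h0 h1 x y)]
    exact mul_le_mul (cr_le h0 h1 x y) (hC (x, y)) (norm_nonneg _) (by norm_num)
  refine tendsto_integral_filter_of_dominated_convergence (fun _ => 2 * C * msig) ?_ ?_
    (integrable_const _) (Eventually.of_forall fun x => ?_)
  · filter_upwards [ev_pos] with r hr
    exact (sm_inner_meas (f := fun x y => cr r x y * φ x y) (hjc r hr.1 hr.2)).aestronglyMeasurable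
  · filter_upwards [ev_pos] with r hr
    refine Eventually.of_forall fun x => ?_
    refine (norm_integral_le_of_norm_le (integrable_const (2 * C))
      (Eventually.of_forall (hb r hr.1 hr.2 x))).trans ?_
    rw [integral_const_sig, mul_comm]
  · refine tendsto_integral_filter_of_dominated_convergence (fun _ => 2 * C) ?_ ?_
      (integrable_const _) ?_
    · filter_upwards [ev_pos] with r hr
      exact (cont_slice (f := fun x y => cr r x y * φ x y) (hjc r hr.1 hr.2)
        x).aestronglyMeasurable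
    · filter_upwards [ev_pos] with r hr
      exact Eventually.of_forall (hb r hr.1 hr.2 x)
    · filter_upwards [ae_ne x] with y hy
      have := (tendsto_cr hy).mul_const (φ x y)
      simpa using this

theorem continuous_inner_field {Z : S4 → E5} (hZ : Continuous Z) :
    Continuous fun p : S4 × S4 => ⟪Z p.1, (p.2 : E5)⟫_ℝ :=
  (hZ.comp continuous_fst).inner (continuous_subtype_val.comp continuous_snd)

/-- **Virial limit.** -/
theorem tendsto_virial {u : S4 → ℝ} (hu : Sm u) {Z : S4 → E5} (hZ : Continuous Z)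
    (hZt : ∀ x : S4, ⟪(x : E5), Z x⟫_ℝ = 0) :
    Tendsto (fun r => ∫ x, ∫ y, r * ⟪Z x, (y : E5)⟫_ℝ / (1 - r * ⟪(x : E5), (y : E5)⟫_ℝ) *
      (paneitz u y + 6) ∂sig ∂sig) (𝓝[<] 1) (𝓝 (∫ x, 6 * (msig * dd u x (Z x)) ∂sig)) := by
  -- bounds
  obtain ⟨CZ, hCZ0, hCZ⟩ : ∃ C : ℝ, 0 ≤ C ∧ ∀ x, ‖Z x‖ ≤ C := by
    obtain ⟨C, hC0, hC⟩ := exists_bound hZ.norm
    exact ⟨C, hC0, fun x => by simpa using hC x⟩
  obtain ⟨C1, hC10, hC1⟩ : ∃ C : ℝ, 0 ≤ C ∧ ∀ (x : S4) (v : E5), |dd u x v| ≤ C * ‖v‖ := by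
    choose c hc0 hc using fun i : Fin 5 => exists_bound (continuous_of_sm (sm_dd hu (ee i)))
    refine ⟨∑ i, c i, Finset.sum_nonneg fun i _ => hc0 i, fun x v => ?_⟩
    rw [dd_eq_sum, Finset.sum_mul]
    refine (Finset.abs_sum_le_sum_abs _ _).trans (Finset.sum_le_sum fun i _ => ?_)
    rw [abs_mul, mul_comm]
    refine mul_le_mul (hc i x) ?_ (abs_nonneg _) (hc0 i)
    exact PiLp.norm_apply_le v i
  have hJ : ∀ x y : S4, ‖Jf (x : E5) (Z x) (y : E5)‖ ≤ 2 * CZ := by
    intro x y
    unfold Jf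
    refine (norm_sub_le _ _).trans ?_
    rw [norm_smul, norm_smul, S4_norm, Real.norm_eq_abs, Real.norm_eq_abs]
    have a1 := abs_real_inner_le_norm (x : E5) (y : E5)
    have a2 := abs_real_inner_le_norm (Z x) (y : E5)
    rw [S4_norm, S4_norm] at a1
    rw [S4_norm, mul_one] at a2
    have := hCZ x
    nlinarith [abs_nonneg ⟪(x : E5), (y : E5)⟫_ℝ, norm_nonneg (Z x)]
  have hF : Continuous fun y => paneitz u y + 6 :=
    (continuous_of_sm hu.paneitz).fun_add continuous_const
  have hjc : ∀ r : ℝ, 0 < r → r < 1 → Continuous fun p : S4 × S4 =>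
      r * ⟪Z p.1, (p.2 : E5)⟫_ℝ / (1 - r * ⟪(p.1 : E5), (p.2 : E5)⟫_ℝ) *
      (paneitz u p.2 + 6) := by
    intro r h0 h1
    refine Continuous.fun_mul (Continuous.div ?_ ?_ fun p => (den_pos h0 h1 _ _).ne')
      (hF.comp continuous_snd)
    · exact continuous_const.fun_mul (continuous_inner_field hZ)
    · exact continuous_const.sub (continuous_const.fun_mul continuous_inner_S4)
  have hk : ∀ r : ℝ, 0 < r → r < 1 → ∀ x : S4,
      ∫ y, r * ⟪Z x, (y : E5)⟫_ℝ / (1 - r * ⟪(x : E5), (y : E5)⟫_ℝ) * (paneitz u y + 6) ∂sig =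
      6 * ∫ y, bub r x y * dd u y (Jf (x : E5) (Z x) (y : E5)) ∂sig :=
    fun r h0 h1 x => kernel_id hu h0 h1 x (hZt x)
  refine tendsto_integral_filter_of_dominated_convergence
    (fun _ => 6 * (C1 * (2 * CZ) * msig)) ?_ ?_ (integrable_const _)
    (Eventually.of_forall fun x => ?_)
  · filter_upwards [ev_pos] with r hr
    exact (sm_inner_meas (f := fun x y => r * ⟪Z x, (y : E5)⟫_ℝ /
      (1 - r * ⟪(x : E5), (y : E5)⟫_ℝ) * (paneitz u y + 6)) (hjc r hr.1 hr.2)).aestronglyMeasurable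
  · filter_upwards [ev_pos] with r hr
    refine Eventually.of_forall fun x => ?_
    rw [hk r hr.1 hr.2, norm_mul, Real.norm_of_nonneg (by norm_num : (0 : ℝ) ≤ 6)]
    refine mul_le_mul_of_nonneg_left ?_ (by norm_num)
    have hb := continuous_bub_right hr.1 hr.2 x
    refine (norm_integral_le_of_norm_le
      (g := fun y => bub r x y * (C1 * (2 * CZ)))
      (integrable_cont (hb.fun_mul continuous_const)) (Eventually.of_forall fun y => ?_)).trans ?_
    · rw [norm_mul, Real.norm_of_nonneg (bub_nonneg r x y)]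
      refine mul_le_mul_of_nonneg_left ?_ (bub_nonneg r x y)
      exact (hC1 y _).trans (mul_le_mul_of_nonneg_left (hJ x y) hC10)
    · rw [integral_mul_const, integral_bub hr.1 hr.2]
      exact le_of_eq (by ring)
  · have hG : Continuous fun y : S4 => dd u y (Jf (x : E5) (Z x) (y : E5)) :=
      continuous_dd_field hu (continuous_Jf _ _)
    have h1 := (tendsto_bub x hG).const_mul 6
    have h2 : Jf (x : E5) (Z x) (x : E5) = Z x := by
      unfold Jf
      rw [real_inner_self_eq_norm_sq, S4_norm, real_inner_comm, hZt x]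
      simp
    rw [h2] at h1
    refine h1.congr' ?_
    filter_upwards [ev_pos] with r hr
    exact (hk r hr.1 hr.2 x).symm

/-- the slack of the pair condition -/
noncomputable def slack (F h : S4 → ℝ) (Z : S4 → E5) (x y : S4) : ℝ :=
  -(F y * ⟪Z x, (y : E5)⟫_ℝ + F x * ⟪Z y, (x : E5)⟫_ℝ) -
    (1 - ⟪(x : E5), (y : E5)⟫_ℝ) * (h x * F y + h y * F x)

theorem continuous_slack {F h : S4 → ℝ} {Z : S4 → E5} (hF : Continuous F) (hh : Continuous h)
    (hZ : Continuous Z) : Continuous fun p : S4 × S4 => slack F h Z p.1 p.2 := by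
  unfold slack
  have h1 : Continuous fun p : S4 × S4 => F p.1 := hF.comp continuous_fst
  have h2 : Continuous fun p : S4 × S4 => F p.2 := hF.comp continuous_snd
  have h3 : Continuous fun p : S4 × S4 => h p.1 := hh.comp continuous_fst
  have h4 : Continuous fun p : S4 × S4 => h p.2 := hh.comp continuous_snd
  have h5 := continuous_inner_field hZ
  have h6 : Continuous fun p : S4 × S4 => ⟪Z p.2, (p.1 : E5)⟫_ℝ :=
    (hZ.comp continuous_snd).inner (continuous_subtype_val.comp continuous_fst)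
  have h7 := continuous_inner_S4
  fun_prop

/-- **Virial inequality** (quantitative form). -/
theorem virial {u : S4 → ℝ} (hu : Sm u) {Z : S4 → E5} (hZ : Continuous Z)
    (hZt : ∀ x : S4, ⟪(x : E5), Z x⟫_ℝ = 0) {h : S4 → ℝ} (hh : Continuous h)
    (hp : ∀ x y : S4, 0 ≤ slack (fun z => paneitz u z + 6) h Z x y) :
    24 * msig * ∫ x, (dd u x (Z x) + h x) ∂sig ≤
      - ∫ x, ∫ y, slack (fun z => paneitz u z + 6) h Z x y ∂sig ∂sig := by
  set F : S4 → ℝ := fun z => paneitz u z + 6 with hFd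
  have hF : Continuous F := (continuous_of_sm hu.paneitz).fun_add continuous_const
  have hFint : ∫ y, F y ∂sig = 6 * msig := by
    rw [hFd, integral_add (integrable_cont (continuous_of_sm hu.paneitz)) (integrable_const _),
      integral_paneitz hu, integral_const_sig]
    ring
  set φ : S4 → S4 → ℝ := fun x y => h x * F y + h y * F x with hφ
  have hφc : Continuous fun p : S4 × S4 => φ p.1 p.2 := by
    have h1 : Continuous fun p : S4 × S4 => F p.1 := hF.comp continuous_fst
    have h2 : Continuous fun p : S4 × S4 => F p.2 := hF.comp continuous_snd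
    have h3 : Continuous fun p : S4 × S4 => h p.1 := hh.comp continuous_fst
    have h4 : Continuous fun p : S4 × S4 => h p.2 := hh.comp continuous_snd
    exact (h3.fun_mul h2).fun_add (h4.fun_mul h1)
  have hSc := continuous_slack hF hh hZ
  set S : S4 → S4 → ℝ := fun x y => slack F h Z x y with hS
  -- the regularised functional
  set k : ℝ → S4 → S4 → ℝ := fun r x y =>
    r * ⟪Z x, (y : E5)⟫_ℝ / (1 - r * ⟪(x : E5), (y : E5)⟫_ℝ) * F y with hk
  have hkc : ∀ r : ℝ, 0 < r → r < 1 → Continuous fun p : S4 × S4 => k r p.1 p.2 := by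
    intro r h0 h1
    refine Continuous.fun_mul (Continuous.div ?_ ?_ fun p => (den_pos h0 h1 _ _).ne')
      (hF.comp continuous_snd)
    · exact continuous_const.fun_mul (continuous_inner_field hZ)
    · exact continuous_const.sub (continuous_const.fun_mul continuous_inner_S4)
  have hT := tendsto_virial hu hZ hZt
  have hCR := tendsto_cr_int hφc
  have hswap : ∀ r : ℝ, 0 < r → r < 1 →
      ∫ x, ∫ y, k r x y ∂sig ∂sig ≤ - (r / 4) * (∫ x, ∫ y, S x y ∂sig ∂sig)
        - (1 / 2) * ∫ x, ∫ y, cr r x y * φ x y ∂sig ∂sig := by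
    intro r h0 h1
    have hsw : ∫ x, ∫ y, k r x y ∂sig ∂sig = ∫ x, ∫ y, k r y x ∂sig ∂sig :=
      integral_integral_swap (f := k r) (integrable2 (hkc r h0 h1))
    have hkc' : Continuous fun p : S4 × S4 => k r p.2 p.1 :=
      (hkc r h0 h1).comp (continuous_snd.prodMk continuous_fst)
    have hpt : ∀ x y, k r x y + k r y x ≤ - (r / 2) * S x y - cr r x y * φ x y := by
      intro x y
      have hd := den_pos h0 h1 x y
      have hd2 : 1 - r * ⟪(x : E5), (y : E5)⟫_ℝ ≤ 2 := by
        have := neg_one_le_inner x y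
        nlinarith
      have hSn : 0 ≤ S x y := hp x y
      have e1 : k r x y + k r y x = r / (1 - r * ⟪(x : E5), (y : E5)⟫_ℝ) *
          (- S x y - (1 - ⟪(x : E5), (y : E5)⟫_ℝ) * φ x y) := by
        simp only [hk, hS, slack, hφ]
        rw [real_inner_comm (x : E5) (y : E5)]
        field_simp
        ring
      have e2 : cr r x y * φ x y = r / (1 - r * ⟪(x : E5), (y : E5)⟫_ℝ) *
          ((1 - ⟪(x : E5), (y : E5)⟫_ℝ) * φ x y) := by
        unfold cr; ring
      rw [e1, e2]
      have h3 : r / 2 ≤ r / (1 - r * ⟪(x : E5), (y : E5)⟫_ℝ) :=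
        div_le_div_of_nonneg_left h0.le hd hd2
      have h4 := mul_le_mul_of_nonneg_right h3 hSn
      nlinarith
    have e3 : 2 * ∫ x, ∫ y, k r x y ∂sig ∂sig = ∫ x, ∫ y, (k r x y + k r y x) ∂sig ∂sig := by
      have i1 : ∀ x, ∫ y, (k r x y + k r y x) ∂sig =
          (∫ y, k r x y ∂sig) + ∫ y, k r y x ∂sig := fun x =>
        integral_add (integrable_cont (cont_slice (f := k r) (hkc r h0 h1) x))
          (integrable_cont (cont_slice (f := fun x y => k r y x) hkc' x))
      simp only [i1]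
      rw [integral_add, ← hsw]
      · ring
      · exact (integrable2 (hkc r h0 h1)).integral_prod_left
      · exact (integrable2 hkc').integral_prod_left
    have hgc : Continuous fun p : S4 × S4 => - (r / 2) * S p.1 p.2 -
        cr r p.1 p.2 * φ p.1 p.2 :=
      (continuous_const.fun_mul hSc).sub ((continuous_cr h0 h1).fun_mul hφc)
    have hsum : Continuous fun p : S4 × S4 => k r p.1 p.2 + k r p.2 p.1 :=
      (hkc r h0 h1).fun_add hkc'
    have e4 : ∫ x, ∫ y, (k r x y + k r y x) ∂sig ∂sig ≤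
        ∫ x, ∫ y, (- (r / 2) * S x y - cr r x y * φ x y) ∂sig ∂sig := by
      refine integral_mono (integrable2 hsum).integral_prod_left
        (integrable2 hgc).integral_prod_left fun x => ?_
      exact integral_mono (integrable_cont (cont_slice (f := fun x y => k r x y + k r y x) hsum x))
        (integrable_cont (cont_slice
          (f := fun x y => - (r / 2) * S x y - cr r x y * φ x y) hgc x)) (hpt x)
    have hcrφ := (continuous_cr h0 h1).fun_mul hφc
    have e5 : ∫ x, ∫ y, (- (r / 2) * S x y - cr r x y * φ x y) ∂sig ∂sig =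
        - (r / 2) * (∫ x, ∫ y, S x y ∂sig ∂sig) - ∫ x, ∫ y, cr r x y * φ x y ∂sig ∂sig := by
      have i1 : ∀ x, ∫ y, (- (r / 2) * S x y - cr r x y * φ x y) ∂sig =
          - (r / 2) * (∫ y, S x y ∂sig) - ∫ y, cr r x y * φ x y ∂sig := by
        intro x
        rw [integral_sub ((integrable_cont (cont_slice (f := S) hSc x)).const_mul _)
          (integrable_cont (cont_slice (f := fun x y => cr r x y * φ x y) hcrφ x)),
          integral_const_mul]
      simp only [i1]
      rw [integral_sub ((integrable2 hSc).integral_prod_left.const_mul _)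
        (integrable2 hcrφ).integral_prod_left, integral_const_mul]
    linarith
  -- limit
  have hid : Tendsto (fun r : ℝ => r) (𝓝[<] 1) (𝓝 1) := nhdsWithin_le_nhds
  have hR : Tendsto (fun r : ℝ => - (r / 4) * (∫ x, ∫ y, S x y ∂sig ∂sig)
        - (1 / 2) * ∫ x, ∫ y, cr r x y * φ x y ∂sig ∂sig) (𝓝[<] 1)
      (𝓝 (- (1 / 4) * (∫ x, ∫ y, S x y ∂sig ∂sig) - (1 / 2) * ∫ x, ∫ y, φ x y ∂sig ∂sig)) :=
    ((hid.div_const 4).neg.mul_const _).sub (hCR.const_mul _)
  have hle := le_of_tendsto_of_tendsto hT hR (by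
    filter_upwards [ev_pos] with r hr
    exact hswap r hr.1 hr.2)
  have hφi : ∫ x, ∫ y, φ x y ∂sig ∂sig = 12 * msig * ∫ x, h x ∂sig := by
    have i1 : ∀ x, ∫ y, φ x y ∂sig = 6 * msig * h x + (∫ y, h y ∂sig) * F x := by
      intro x
      simp only [hφ]
      rw [integral_add ((integrable_cont hF).const_mul _) ((integrable_cont hh).mul_const _),
        integral_const_mul, integral_mul_const, hFint]
      ring
    simp only [i1]
    rw [integral_add ((integrable_cont hh).const_mul _) ((integrable_cont hF).const_mul _),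
      integral_const_mul, integral_const_mul, hFint]
    ring
  have hLi : ∫ x, 6 * (msig * dd u x (Z x)) ∂sig = 6 * msig * ∫ x, dd u x (Z x) ∂sig := by
    rw [integral_const_mul, integral_const_mul]; ring
  have hsplit : ∫ x, (dd u x (Z x) + h x) ∂sig = (∫ x, dd u x (Z x) ∂sig) + ∫ x, h x ∂sig :=
    integral_add (integrable_cont (continuous_dd_field hu hZ)) (integrable_cont hh)
  rw [hLi, hφi] at hle
  rw [hsplit]
  linarith

/-- positivity of a double integral -/
theorem double_pos {f : S4 → S4 → ℝ} (hf : Continuous fun p : S4 × S4 => f p.1 p.2)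
    (h0 : ∀ x y, 0 ≤ f x y) {x₀ y₀ : S4} (h1 : 0 < f x₀ y₀) :
    0 < ∫ x, ∫ y, f x y ∂sig ∂sig := by
  have e : ∫ x, ∫ y, f x y ∂sig ∂sig = ∫ p, f p.1 p.2 ∂(sig.prod sig) :=
    (integral_prod (fun p : S4 × S4 => f p.1 p.2) (integrable2 hf)).symm
  rw [e]
  exact hf.integral_pos_of_hasCompactSupport_nonneg_nonzero
    (HasCompactSupport.of_compactSpace _) (fun p => h0 _ _) (x := (x₀, y₀)) h1.ne'

theorem single_pos {f : S4 → ℝ} (hf : Continuous f) (h0 : ∀ x, 0 ≤ f x) {x₀ : S4}
    (h1 : 0 < f x₀) : 0 < ∫ x, f x ∂sig :=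
  hf.integral_pos_of_hasCompactSupport_nonneg_nonzero
    (HasCompactSupport.of_compactSpace _) h0 (x := x₀) h1.ne'

end Pool.Agent.Helper82_Vir
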