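import Mathlib
import Pool.Agent.Helper82_Vir.Vir

set_option autoImplicit false

/-!
# The virial criterion for non-existence
-/

namespace Pool.Agent.Helper82_Vir

open Pool.Agent.Helper42_Paneitz
open scoped Manifold ContDiff InnerProductSpace Topology Pointwise
open Filter MeasureTheory Set

theorem norm_sub_sq_S4 (x y : S4) : ‖(x : E5) - (y : E5)‖ ^ 2 = 2 * (1 - ⟪(x : E5), (y : E5)⟫_ℝ) := by
  rw [norm_sub_sq_real, S4_norm, S4_norm]; ring

/-- product of a function and a vector field -/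
theorem smV_smul {f : S4 → ℝ} (hf : Sm f) {V : S4 → E5} (hV : SmV V) :
    SmV (fun x => f x • V x) := fun i => sm_mul hf (hV i)

theorem dv_smul {f : S4 → ℝ} (hf : Sm f) {V : S4 → E5} (hV : SmV V) (x : S4) :
    dv (fun x => f x • V x) x = dd f x (V x) + f x * dv V x := by
  unfold dv
  rw [dd_eq_sum f x (V x), Finset.mul_sum, ← Finset.sum_add_distrib]
  refine Finset.sum_congr rfl fun i _ => ?_
  have h : (fun z : S4 => (f z • V z) i) = fun z => f z * V z i := rfl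
  rw [h, dd_mul hf (hV i)]
  ring

theorem smV_add {V W : S4 → E5} (hV : SmV V) (hW : SmV W) : SmV (fun x => V x + W x) :=
  fun i => (hV i).add (hW i)

theorem dv_add {V W : S4 → E5} (hV : SmV V) (hW : SmV W) (x : S4) :
    dv (fun x => V x + W x) x = dv V x + dv W x := by
  unfold dv
  rw [← Finset.sum_add_distrib]
  exact Finset.sum_congr rfl fun i _ => dd_fun_add (hV i) (hW i) x _

/-- `e^{4u}` -/
theorem sm_exp4 {u : S4 → ℝ} (hu : Sm u) : Sm (fun x => Real.exp (4 * u x)) :=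
  sm_comp (hu.smul 4) Real.contDiff_exp

theorem dd_exp4 {u : S4 → ℝ} (hu : Sm u) (x : S4) (v : E5) :
    dd (fun x => Real.exp (4 * u x)) x v = 4 * Real.exp (4 * u x) * dd u x v := by
  have h := dd_comp (hu.smul 4) Real.contDiff_exp x v
  rw [Real.deriv_exp, dd_fun_smul 4 hu] at h
  rw [h]; ring

/-- **The virial criterion.**  `V` is a smooth tangent vector field, `g` a continuous function. -/
theorem criterion {Q : S4 → ℝ} (hQ : Sm Q) {V : S4 → E5} (hV : SmV V)
    (hVt : ∀ x : S4, ⟪(x : E5), V x⟫_ℝ = 0) {g : S4 → ℝ} (hg : Continuous g)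
    (h1 : ∀ x, dd Q x (V x) + Q x * dv V x ≤ 4 * g x * Q x)
    (h2 : ∀ x y : S4, 0 ≤ Q x * Q y * (⟪V x - V y, (x : E5) - (y : E5)⟫_ℝ -
      (g x + g y) / 2 * ‖(x : E5) - (y : E5)‖ ^ 2))
    (h3 : (∃ x, dd Q x (V x) + Q x * dv V x < 4 * g x * Q x) ∨
      ∃ x y : S4, 0 < Q x * Q y * (⟪V x - V y, (x : E5) - (y : E5)⟫_ℝ -
      (g x + g y) / 2 * ‖(x : E5) - (y : E5)‖ ^ 2)) : ¬ IsPaneitzCurvature Q := by
  rintro ⟨-, u, hu0, hu⟩
  have hus : Sm u := sm_of_contMDiff hu0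
  set E : S4 → ℝ := fun x => Real.exp (4 * u x) with hE
  have hEs : Sm E := sm_exp4 hus
  have hEpos : ∀ x, 0 < E x := fun x => Real.exp_pos _
  set F : S4 → ℝ := fun x => Q x * E x with hF
  have hFs : Sm F := sm_mul hQ hEs
  have hFP : (fun z => paneitz u z + 6) = F := by
    funext z
    rw [hu z]
    simp [hF, hE]
  have hVc := hV.continuous
  have hFc := continuous_of_sm hFs
  set Z : S4 → E5 := fun x => F x • V x with hZ
  have hZs : SmV Z := smV_smul hFs hV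
  have hZt : ∀ x : S4, ⟪(x : E5), Z x⟫_ℝ = 0 := by
    intro x; simp only [hZ, inner_smul_right, hVt x, mul_zero]
  set h : S4 → ℝ := fun x => g x * F x with hh
  have hhc : Continuous h := hg.fun_mul hFc
  have hslack : ∀ x y : S4, slack F h Z x y = E x * E y * (Q x * Q y *
      (⟪V x - V y, (x : E5) - (y : E5)⟫_ℝ - (g x + g y) / 2 * ‖(x : E5) - (y : E5)‖ ^ 2)) := by
    intro x y
    have e1 : ⟪V x - V y, (x : E5) - (y : E5)⟫_ℝ = - ⟪V x, (y : E5)⟫_ℝ - ⟪V y, (x : E5)⟫_ℝ := by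
      rw [inner_sub_left, inner_sub_right, inner_sub_right]
      have a1 := hVt x
      have a2 := hVt y
      rw [real_inner_comm] at a1 a2
      rw [a1, a2]
      ring
    rw [e1, norm_sub_sq_S4]
    unfold slack
    simp only [hZ, hh, hF, real_inner_smul_left]
    ring
  have hdiv := integral_dv_tangent hZs hZt
  have hdvZ : ∀ x, dv Z x = E x * (dd Q x (V x) + Q x * dv V x) + 4 * dd u x (Z x) := by
    intro x
    rw [hZ, dv_smul hFs hV]
    simp only [hF]
    rw [dd_mul hQ hEs, hE, dd_exp4 hus, dd_smul]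
    ring
  have hVd : Continuous fun x => dd Q x (V x) + Q x * dv V x :=
    (continuous_dd_field hQ hVc).fun_add ((continuous_of_sm hQ).fun_mul (continuous_dv hV))
  have hEc := continuous_of_sm hEs
  have hdu : Continuous fun x => dd u x (Z x) := continuous_dd_field hus hZs.continuous
  simp only [hdvZ] at hdiv
  have hvir := virial hus hZs.continuous hZt hhc (by
    intro x y
    rw [hFP, hslack]
    exact mul_nonneg (mul_pos (hEpos x) (hEpos y)).le (h2 x y))
  rw [hFP] at hvir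
  -- the one-point part
  set d : S4 → ℝ := fun x => E x * (4 * g x * Q x - (dd Q x (V x) + Q x * dv V x)) with hd
  have hdc : Continuous d :=
    hEc.fun_mul (((continuous_const.fun_mul hg).fun_mul (continuous_of_sm hQ)).sub hVd)
  have hd0 : ∀ x, 0 ≤ d x := fun x => mul_nonneg (hEpos x).le (by linarith [h1 x])
  have hdint : ∫ x, d x ∂sig = 4 * ∫ x, (dd u x (Z x) + h x) ∂sig := by
    have e1 : ∀ x, d x = 4 * (dd u x (Z x) + h x) -
        (E x * (dd Q x (V x) + Q x * dv V x) + 4 * dd u x (Z x)) := by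
      intro x; simp only [hd, hh, hF]; ring
    simp only [e1]
    rw [integral_sub ((integrable_cont (hdu.fun_add hhc)).const_mul _)
      (integrable_cont ((hEc.fun_mul hVd).fun_add (continuous_const.fun_mul hdu))), hdiv,
      integral_const_mul]
    ring
  have hS := continuous_slack hFc hhc hZs.continuous
  have hS0 : ∀ x y : S4, 0 ≤ slack F h Z x y := by
    intro x y
    rw [hslack]
    exact mul_nonneg (mul_pos (hEpos x) (hEpos y)).le (h2 x y)
  have hSi : 0 ≤ ∫ x, ∫ y, slack F h Z x y ∂sig ∂sig :=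
    integral_nonneg fun x => integral_nonneg fun y => hS0 x y
  have hdi : 0 ≤ ∫ x, d x ∂sig := integral_nonneg hd0
  have hm := msig_pos
  rcases h3 with ⟨x, hx⟩ | ⟨x, y, hxy⟩
  · have h4 : 0 < ∫ x, d x ∂sig := by
      refine single_pos hdc hd0 (x₀ := x) ?_
      exact mul_pos (hEpos x) (by linarith)
    have h5 : 0 < ∫ x, (dd u x (Z x) + h x) ∂sig := by linarith
    have h6 : 0 < 24 * msig * ∫ x, (dd u x (Z x) + h x) ∂sig := by positivity
    linarith
  · have h4 : 0 < ∫ x, ∫ y, slack F h Z x y ∂sig ∂sig := by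
      refine double_pos (f := fun x y => slack F h Z x y) hS hS0 (x₀ := x) (y₀ := y) ?_
      rw [hslack]
      exact mul_pos (mul_pos (hEpos x) (hEpos y)) hxy
    have h5 : 0 ≤ ∫ x, (dd u x (Z x) + h x) ∂sig := by linarith
    have h6 : 0 ≤ 24 * msig * ∫ x, (dd u x (Z x) + h x) ∂sig := by positivity
    linarith

/-- the conformal field `x ↦ a - ⟨a,x⟩ x + A x` -/
noncomputable def cf (a : E5) (A : E5 →L[ℝ] E5) (x : S4) : E5 :=
  a - ⟪a, (x : E5)⟫_ℝ • (x : E5) + A (x : E5)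

theorem cf_tangent (a : E5) {A : E5 →L[ℝ] E5} (hA : ∀ v, ⟪A v, v⟫_ℝ = 0) (x : S4) :
    ⟪(x : E5), cf a A x⟫_ℝ = 0 := by
  unfold cf
  have h1 : ⟪(x : E5), A (x : E5)⟫_ℝ = 0 := by rw [real_inner_comm]; exact hA _
  have h2 : ⟪(x : E5), a⟫_ℝ = ⟪a, (x : E5)⟫_ℝ := real_inner_comm _ _
  rw [inner_add_right, inner_sub_right, inner_smul_right, real_inner_self_eq_norm_sq, S4_norm, h1, h2]
  ring

theorem skew_polar {A : E5 →L[ℝ] E5} (hA : ∀ v, ⟪A v, v⟫_ℝ = 0) (v w : E5) :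
    ⟪A v, w⟫_ℝ = - ⟪A w, v⟫_ℝ := by
  have h := hA (v + w)
  rw [map_add, inner_add_left, inner_add_right, inner_add_right, hA v, hA w] at h
  linarith

theorem sm_coord (i : Fin 5) : Sm (fun x : S4 => (x : E5) i) := by
  have := sm_inner (ee i)
  simpa only [inner_ee'] using this

theorem dd_coord (i : Fin 5) (x : S4) (v : E5) :
    dd (fun x : S4 => (x : E5) i) x v = v i - (x : E5) i * ⟪(x : E5), v⟫_ℝ := by
  have h := dd_inner (ee i) x v
  simp only [inner_ee'] at h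
  exact h

theorem smV_coe : SmV (fun x : S4 => (x : E5)) := sm_coord

theorem dv_coe (x : S4) : dv (fun x : S4 => (x : E5)) x = 4 := by
  unfold dv
  have h : ∀ i : Fin 5, dd (fun z : S4 => (z : E5) i) x (ee i) = 1 - (x : E5) i ^ 2 := by
    intro i
    rw [dd_coord, ee_apply, if_pos rfl, inner_ee]
    ring
  rw [Finset.sum_congr rfl fun i _ => h i, Finset.sum_sub_distrib, sum_sq, S4_norm]
  simp
  norm_num

theorem smV_const (a : E5) : SmV (fun _ : S4 => a) := fun i => sm_const (a i)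

theorem dv_const (a : E5) (x : S4) : dv (fun _ : S4 => a) x = 0 := by
  unfold dv
  exact Finset.sum_eq_zero fun i _ => dd_const _ _ _

theorem smV_clm (A : E5 →L[ℝ] E5) : SmV (fun x : S4 => A (x : E5)) := by
  intro i
  refine sm_of_restrict (fun y => (A y) i) fun x => ?_
  have h : ContDiff ℝ ∞ fun y : E5 => (A y) i := by
    have h1 : ContDiff ℝ ∞ fun y : E5 => ⟪ee i, A y⟫_ℝ := contDiff_const.inner ℝ A.contDiff
    simpa only [inner_ee'] using h1
  exact h.contDiffAt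

theorem dv_skew {A : E5 →L[ℝ] E5} (hA : ∀ v, ⟪A v, v⟫_ℝ = 0) (x : S4) :
    dv (fun x : S4 => A (x : E5)) x = 0 := by
  unfold dv
  have h1 : ∀ i : Fin 5, dd (fun z : S4 => (A (z : E5)) i) x (ee i) =
      (x : E5) i * ⟪A (ee i), (x : E5)⟫_ℝ := by
    intro i
    have h2 : (fun z : S4 => (A (z : E5)) i) = fun z : S4 => ⟪-A (ee i), (z : E5)⟫_ℝ := by
      funext z
      rw [← inner_ee (A (z : E5)) i, skew_polar hA, inner_neg_left]
    rw [h2, dd_inner, inner_neg_left, hA, inner_neg_left, inner_ee]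
    ring
  rw [Finset.sum_congr rfl fun i _ => h1 i]
  have h3 : ∑ i : Fin 5, (x : E5) i * ⟪A (ee i), (x : E5)⟫_ℝ = ⟪A (x : E5), (x : E5)⟫_ℝ := by
    conv_rhs => rw [← sum_ee (x : E5)]
    rw [map_sum, sum_inner, sum_ee]
    refine Finset.sum_congr rfl fun i _ => ?_
    rw [map_smul, real_inner_smul_left]
  rw [h3, hA]

theorem smV_cf (a : E5) (A : E5 →L[ℝ] E5) : SmV (cf a A) := by
  have h1 : SmV (fun x : S4 => (-⟪a, (x : E5)⟫_ℝ) • (x : E5)) := smV_smul (sm_neg (sm_inner a)) smV_coe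
  have h2 := smV_add (smV_add (smV_const a) h1) (smV_clm A)
  have h3 : cf a A = fun x : S4 => a + (-⟪a, (x : E5)⟫_ℝ) • (x : E5) + A (x : E5) := by
    funext x; unfold cf; rw [neg_smul, sub_eq_add_neg]
  rw [h3]
  exact h2

theorem dv_cf (a : E5) {A : E5 →L[ℝ] E5} (hA : ∀ v, ⟪A v, v⟫_ℝ = 0) (x : S4) :
    dv (cf a A) x = - 4 * ⟪a, (x : E5)⟫_ℝ := by
  have h1 : SmV (fun x : S4 => (-⟪a, (x : E5)⟫_ℝ) • (x : E5)) := smV_smul (sm_neg (sm_inner a)) smV_coe
  have h3 : cf a A = fun x : S4 => (a + (-⟪a, (x : E5)⟫_ℝ) • (x : E5)) + A (x : E5) := by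
    funext x; unfold cf; rw [neg_smul, sub_eq_add_neg]
  rw [h3, dv_add (smV_add (smV_const a) h1) (smV_clm A), dv_skew hA, dv_add (smV_const a) h1,
    dv_const, dv_smul (sm_neg (sm_inner a)) smV_coe, dv_coe, dd_fun_neg (sm_inner a), dd_inner,
    real_inner_self_eq_norm_sq, S4_norm]
  ring

theorem cf_pair (a : E5) {A : E5 →L[ℝ] E5} (hA : ∀ v, ⟪A v, v⟫_ℝ = 0) (x y : S4) :
    ⟪cf a A x - cf a A y, (x : E5) - (y : E5)⟫_ℝ =
      (-⟪a, (x : E5)⟫_ℝ + -⟪a, (y : E5)⟫_ℝ) / 2 * ‖(x : E5) - (y : E5)‖ ^ 2 := by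
  have hx := cf_tangent a hA x
  have hy := cf_tangent a hA y
  rw [real_inner_comm] at hx hy
  rw [norm_sub_sq_S4, inner_sub_left, inner_sub_right, inner_sub_right, hx, hy]
  have h1 : ⟪cf a A x, (y : E5)⟫_ℝ = ⟪a, (y : E5)⟫_ℝ - ⟪a, (x : E5)⟫_ℝ * ⟪(x : E5), (y : E5)⟫_ℝ +
      ⟪A (x : E5), (y : E5)⟫_ℝ := by
    unfold cf; rw [inner_add_left, inner_sub_left, real_inner_smul_left]
  have h2 : ⟪cf a A y, (x : E5)⟫_ℝ = ⟪a, (x : E5)⟫_ℝ - ⟪a, (y : E5)⟫_ℝ * ⟪(x : E5), (y : E5)⟫_ℝ -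
      ⟪A (x : E5), (y : E5)⟫_ℝ := by
    unfold cf
    rw [inner_add_left, inner_sub_left, real_inner_smul_left, real_inner_comm (y : E5) (x : E5),
      skew_polar hA (y : E5) (x : E5)]
    ring
  rw [h1, h2]
  ring

end Pool.Agent.Helper82_Vir
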