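import Mathlib
import Pool.Agent.Helper82_Vir.Crit

set_option autoImplicit false

/-!
# Steep functions are not Paneitz curvatures
-/

namespace Pool.Agent.Helper82_Vir

open Pool.Agent.Helper42_Paneitz
open scoped Manifold ContDiff InnerProductSpace Topology Pointwise
open Filter MeasureTheory Set

theorem urysohn {s t : Set S4} (hs : IsClosed s) (ht : IsClosed t) (hd : Disjoint s t) :
    ∃ f : S4 → ℝ, Sm f ∧ (∀ x ∈ s, f x = 0) ∧ (∀ x ∈ t, f x = 1) ∧ ∀ x, 0 ≤ f x ∧ f x ≤ 1 := by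
  have := fact_E5
  obtain ⟨f, h0, h1, h2⟩ := exists_contMDiffMap_zero_one_of_isClosed (n := ⊤) (𝓡 4) hs ht hd
  refine ⟨f, sm_of_contMDiff f.contMDiff, fun x hx => h0 hx, fun x hx => h1 hx, fun x => ?_⟩
  exact ⟨(h2 x).1, (h2 x).2⟩

theorem pos_lower {s : Set S4} (hs : IsClosed s) {f : S4 → ℝ} (hf : Continuous f)
    (hpos : ∀ x ∈ s, 0 < f x) : ∃ c : ℝ, 0 < c ∧ ∀ x ∈ s, c ≤ f x := by
  rcases s.eq_empty_or_nonempty with rfl | hne
  · exact ⟨1, one_pos, fun x hx => absurd hx (notMem_empty x)⟩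
  · obtain ⟨x₀, hx₀, hmin⟩ := hs.isCompact.exists_isMinOn hne hf.continuousOn
    exact ⟨f x₀, hpos x₀ hx₀, fun x hx => hmin hx⟩

/-- at a minimum the derivative vanishes -/
theorem dd_eq_zero_of_min {f : S4 → ℝ} (hf : Sm f) {x : S4} (hmin : ∀ y, f x ≤ f y) (v : E5) :
    dd f x v = 0 := by
  have hx := S4_ne_zero x
  have h : IsLocalMin (radialExt f) (x : E5) := by
    filter_upwards [eventually_ne_zero hx] with z hz
    rw [radialExt_coe, radialExt_apply _ hz]
    exact hmin _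
  unfold dd
  rw [h.fderiv_eq_zero]
  rfl

theorem exists_dd_bound {f : S4 → ℝ} (hf : Sm f) :
    ∃ C : ℝ, 0 ≤ C ∧ ∀ (x : S4) (v : E5), |dd f x v| ≤ C * ‖v‖ := by
  choose c hc0 hc using fun i : Fin 5 => exists_bound (continuous_of_sm (sm_dd hf (ee i)))
  refine ⟨∑ i, c i, Finset.sum_nonneg fun i _ => hc0 i, fun x v => ?_⟩
  rw [dd_eq_sum, Finset.sum_mul]
  refine (Finset.abs_sum_le_sum_abs _ _).trans (Finset.sum_le_sum fun i _ => ?_)
  rw [abs_mul, mul_comm]
  refine mul_le_mul (hc i x) ?_ (abs_nonneg _) (hc0 i)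
  exact PiLp.norm_apply_le v i

theorem sm_lipschitz {f : S4 → ℝ} (hf : Sm f) :
    ∃ L : ℝ, 0 ≤ L ∧ ∀ x y : S4, |f x - f y| ≤ L * ‖(x : E5) - (y : E5)‖ := by
  obtain ⟨C, hC0, hC⟩ := exists_dd_bound hf
  obtain ⟨B, hB0, hB⟩ := exists_bound (continuous_of_sm hf)
  refine ⟨2 * C + 2 * B, by positivity, fun x y => ?_⟩
  have hn := norm_nonneg ((x : E5) - (y : E5))
  rcases le_or_gt ‖(x : E5) - (y : E5)‖ 1 with h | h
  · -- mean value inequality along the segment
    have hseg : ∀ z ∈ segment ℝ (y : E5) (x : E5), 1 / 2 ≤ ‖z‖ := by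
      intro z hz
      rw [segment_eq_image] at hz
      obtain ⟨t, ht, rfl⟩ := hz
      rcases le_or_gt t (1 / 2) with h2 | h2
      · have e : (1 - t) • (y : E5) + t • (x : E5) = (y : E5) + t • ((x : E5) - (y : E5)) := by
          module
        have h3 : ‖(y : E5)‖ - ‖t • ((x : E5) - (y : E5))‖ ≤
            ‖(1 - t) • (y : E5) + t • (x : E5)‖ := by
          rw [e]
          have := norm_sub_norm_le (y : E5) (-(t • ((x : E5) - (y : E5))))
          rwa [norm_neg, sub_neg_eq_add] at this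
        rw [S4_norm, norm_smul, Real.norm_of_nonneg ht.1] at h3
        have : t * ‖(x : E5) - (y : E5)‖ ≤ 1 / 2 := by nlinarith [ht.1]
        show 1 / 2 ≤ ‖(1 - t) • (y : E5) + t • (x : E5)‖
        linarith
      · have e : (1 - t) • (y : E5) + t • (x : E5) = (x : E5) - (1 - t) • ((x : E5) - (y : E5)) := by
          module
        have h3 : ‖(x : E5)‖ - ‖(1 - t) • ((x : E5) - (y : E5))‖ ≤
            ‖(1 - t) • (y : E5) + t • (x : E5)‖ := by
          rw [e]
          exact norm_sub_norm_le _ _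
        have ht1 : 0 ≤ 1 - t := by linarith [ht.2]
        rw [S4_norm, norm_smul, Real.norm_of_nonneg ht1] at h3
        have : (1 - t) * ‖(x : E5) - (y : E5)‖ ≤ 1 / 2 := by nlinarith
        show 1 / 2 ≤ ‖(1 - t) • (y : E5) + t • (x : E5)‖
        linarith
    have hne : ∀ z ∈ segment ℝ (y : E5) (x : E5), z ≠ 0 := by
      intro z hz h0
      have := hseg z hz
      rw [h0, norm_zero] at this
      norm_num at this
    have hder : ∀ z ∈ segment ℝ (y : E5) (x : E5),
        HasFDerivWithinAt (radialExt f) (fderiv ℝ (radialExt f) z)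
          (segment ℝ (y : E5) (x : E5)) z :=
      fun z hz => ((sm_diffAt hf (hne z hz)).hasFDerivAt).hasFDerivWithinAt
    have hbd : ∀ z ∈ segment ℝ (y : E5) (x : E5), ‖fderiv ℝ (radialExt f) z‖ ≤ 2 * C := by
      intro z hz
      refine ContinuousLinearMap.opNorm_le_bound _ (by positivity) fun v => ?_
      have hz0 := hne z hz
      have hzn := norm_pos_of_ne hz0
      set w : S4 := ⟨‖z‖⁻¹ • z, normalize_mem hz0⟩ with hw
      have hz1 : z = ‖z‖ • (w : E5) := by
        show z = ‖z‖ • (‖z‖⁻¹ • z)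
        rw [smul_smul, mul_inv_cancel₀ hzn.ne', one_smul]
      have h1 : fderiv ℝ (radialExt f) z v = ‖z‖⁻¹ * dd f w v := by
        conv_lhs => rw [hz1]
        exact fderiv_radialExt_smul hf hzn (S4_ne_zero w) v
      rw [h1, norm_mul, norm_inv, norm_norm, Real.norm_eq_abs]
      have h2 : ‖z‖⁻¹ ≤ 2 := by
        rw [inv_le_comm₀ hzn (by norm_num)]
        have := hseg z hz
        linarith
      calc ‖z‖⁻¹ * |dd f w v| ≤ 2 * (C * ‖v‖) :=
            mul_le_mul h2 (hC w v) (abs_nonneg _) (by norm_num)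
        _ = 2 * C * ‖v‖ := by ring
    have := (convex_segment (y : E5) (x : E5)).norm_image_sub_le_of_norm_hasFDerivWithin_le
      hder hbd (left_mem_segment ℝ _ _) (right_mem_segment ℝ _ _)
    rw [radialExt_coe, radialExt_coe, Real.norm_eq_abs] at this
    nlinarith
  · have h1 : |f x - f y| ≤ 2 * B := by
      refine (abs_sub _ _).trans ?_
      have := hB x; have := hB y; linarith
    nlinarith

theorem smV_lipschitz {W : S4 → E5} (hW : SmV W) :
    ∃ L : ℝ, 0 ≤ L ∧ ∀ x y : S4, ‖W x - W y‖ ≤ L * ‖(x : E5) - (y : E5)‖ := by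
  choose L hL0 hL using fun i : Fin 5 => sm_lipschitz (hW i)
  refine ⟨∑ i, L i, Finset.sum_nonneg fun i _ => hL0 i, fun x y => ?_⟩
  have h1 : W x - W y = ∑ i : Fin 5, (W x i - W y i) • ee i := by
    conv_lhs => rw [← sum_ee (W x - W y)]
    rfl
  rw [h1, Finset.sum_mul]
  refine (norm_sum_le _ _).trans (Finset.sum_le_sum fun i _ => ?_)
  rw [norm_smul, norm_ee, mul_one]
  exact hL i x y

/-- the gradient -/
noncomputable def gd (ψ : S4 → ℝ) (x : S4) : E5 := ∑ i : Fin 5, dd ψ x (ee i) • ee i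

theorem gd_apply (ψ : S4 → ℝ) (x : S4) (i : Fin 5) : gd ψ x i = dd ψ x (ee i) := by
  unfold gd
  simp [Pi.single_apply]

theorem smV_gd {ψ : S4 → ℝ} (hψ : Sm ψ) : SmV (gd ψ) := by
  intro i
  simp only [gd_apply]
  exact sm_dd hψ _

theorem inner_gd {ψ : S4 → ℝ} (x : S4) (v : E5) : ⟪v, gd ψ x⟫_ℝ = dd ψ x v := by
  rw [← sum_mul, dd_eq_sum]
  simp only [gd_apply]

theorem dd_gd {ψ : S4 → ℝ} (x : S4) : dd ψ x (gd ψ x) = ‖gd ψ x‖ ^ 2 := by
  rw [← inner_gd, real_inner_self_eq_norm_sq]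

/-- **Steep functions are not Paneitz curvatures.** -/
theorem steep {ψ : S4 → ℝ} (hψ : Sm ψ) {K : Set S4} (hK : IsClosed K) (hKne : K ≠ univ)
    (a : E5) {A : E5 →L[ℝ] E5} (hA : ∀ v, ⟪A v, v⟫_ℝ = 0)
    (h1 : ∀ x ∈ K, 0 ≤ dd ψ x (cf a A x)) (h2 : ∀ x ∈ frontier K, 0 < dd ψ x (cf a A x))
    (h3 : ∀ x, x ∉ K → ∃ v, dd ψ x v ≠ 0) :
    ∃ Λ : ℝ, ∀ φ : ℝ → ℝ, ContDiff ℝ ∞ φ → (∀ t, Λ ≤ deriv φ t) →
      ¬ IsPaneitzCurvature (fun x => Real.exp (-φ (ψ x))) := by
  set X : S4 → E5 := cf a A with hX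
  have hXs : SmV X := smV_cf a A
  have hXc := hXs.continuous
  set f : S4 → ℝ := fun x => dd ψ x (X x) with hf
  have hfc : Continuous f := continuous_dd_field hψ hXc
  -- the closed set where the field is bad
  set C1 : Set S4 := {x | x ∉ interior K ∧ f x ≤ 0} with hC1
  have hC1c : IsClosed C1 :=
    (isOpen_interior.isClosed_compl).inter (isClosed_le hfc continuous_const)
  have hdisj : Disjoint K C1 := by
    rw [Set.disjoint_left]
    intro x hx hx1
    have : x ∈ frontier K := ⟨subset_closure hx, hx1.1⟩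
    exact absurd (h2 x this) (not_lt.2 hx1.2)
  obtain ⟨δ, hδ, hδd⟩ := hdisj.exists_cthickenings hK.isCompact hC1c
  have hd2 : Disjoint (Metric.cthickening δ K) C1 :=
    hδd.mono_right (Metric.self_subset_cthickening _)
  obtain ⟨χ, hχs, hχ0, hχ1, hχb⟩ := urysohn Metric.isClosed_cthickening hC1c hd2
  have hd3 : Disjoint K (Metric.thickening δ K)ᶜ := by
    rw [Set.disjoint_left]
    intro x hx hx1
    exact hx1 (Metric.self_subset_thickening hδ K hx)
  obtain ⟨η, hηs, hη0, hη1, hηb⟩ := urysohn hK (Metric.isOpen_thickening.isClosed_compl) hd3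
  have hηc := continuous_of_sm hηs
  have hgds := smV_gd hψ
  -- the size of the gradient on C1
  have hN : Continuous fun x => ‖gd ψ x‖ ^ 2 := (hgds.continuous.norm).pow 2
  obtain ⟨n0, hn0, hn1⟩ := pos_lower hC1c hN (by
    intro x hx
    have hxK : x ∉ K := fun h => (Set.disjoint_left.1 hdisj h) hx
    obtain ⟨v, hv⟩ := h3 x hxK
    have : gd ψ x ≠ 0 := by
      intro h0
      rw [← inner_gd, h0, inner_zero_right] at hv
      exact hv rfl
    have := norm_pos_of_ne this
    positivity)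
  obtain ⟨Cf, hCf0, hCf⟩ := exists_bound hfc
  set M : ℝ := (Cf + 1) / n0 with hM
  have hM0 : 0 ≤ M := by positivity
  set W : S4 → E5 := fun x => (M * χ x) • gd ψ x with hW
  have hWs : SmV W := smV_smul (hχs.smul M) hgds
  set V : S4 → E5 := fun x => X x + W x with hV
  have hVs : SmV V := smV_add hXs hWs
  have hVt : ∀ x : S4, ⟪(x : E5), V x⟫_ℝ = 0 := by
    intro x
    simp only [hV, hW, inner_add_right, inner_smul_right, hX, cf_tangent a hA, inner_gd,
      dd_self hψ]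
    ring
  set w : S4 → ℝ := fun x => dd ψ x (V x) with hw
  have hwc : Continuous w := continuous_dd_field hψ hVs.continuous
  have hweq : ∀ x, w x = f x + M * χ x * ‖gd ψ x‖ ^ 2 := by
    intro x
    simp only [hw, hV, hW, dd_add, dd_smul, dd_gd, hf]
  obtain ⟨c, hc0, hc⟩ := pos_lower (s := (interior K)ᶜ) isOpen_interior.isClosed_compl hwc (by
    intro x hx
    rw [hweq]
    have hχx := (hχb x).1
    rcases lt_or_ge 0 (f x) with h | h
    · have : 0 ≤ M * χ x * ‖gd ψ x‖ ^ 2 := by positivity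
      linarith
    · have hxC : x ∈ C1 := ⟨hx, h⟩
      rw [hχ1 x hxC, mul_one]
      have h4 := hn1 x hxC
      have h5 := (abs_le.1 (hCf x)).1
      have h6 : M * n0 = Cf + 1 := by rw [hM]; field_simp
      have h7 := mul_le_mul_of_nonneg_left h4 hM0
      linarith)
  obtain ⟨L, hL0, hL⟩ := smV_lipschitz hWs
  obtain ⟨D, hD0, hD⟩ := exists_bound (continuous_dv hWs)
  refine ⟨(D + 8 * L + 1) / c, fun φ hφ hφ1 => ?_⟩
  set Λ : ℝ := (D + 8 * L + 1) / c with hΛ
  have hΛ0 : 0 ≤ Λ := by positivity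
  have hΛc : Λ * c = D + 8 * L + 1 := by rw [hΛ]; field_simp
  -- the function Q
  set Q : S4 → ℝ := fun x => Real.exp (-φ (ψ x)) with hQ
  have hexp : ContDiff ℝ ∞ fun t => Real.exp (-φ t) := Real.contDiff_exp.comp hφ.neg
  have hQs : Sm Q := sm_comp hψ hexp
  have hQpos : ∀ x, 0 < Q x := fun x => Real.exp_pos _
  have hQd : ∀ x v, dd Q x v = - (deriv φ (ψ x) * Q x * dd ψ x v) := by
    intro x v
    rw [hQ, dd_comp hψ hexp]
    have hd : HasDerivAt φ (deriv φ (ψ x)) (ψ x) :=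
      ((hφ.differentiable (by simp)) _).hasDerivAt
    have hd2 : HasDerivAt (fun t => Real.exp (-φ t))
        (Real.exp (-φ (ψ x)) * -deriv φ (ψ x)) (ψ x) := hd.fun_neg.exp
    rw [hd2.deriv]
    ring
  have hdvW0 : ∀ x, χ x = 0 → dv W x = 0 := by
    intro x hx
    rw [hW, dv_smul (hχs.smul M) hgds, hx]
    have : dd (fun x => M * χ x) x (gd ψ x) = 0 := by
      rw [dd_fun_smul M hχs, dd_eq_zero_of_min hχs (fun y => by rw [hx]; exact (hχb y).1), mul_zero]
    rw [this]
    ring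
  have hKχ : ∀ x ∈ K, χ x = 0 := fun x hx => hχ0 x (Metric.self_subset_cthickening _ hx)
  have hdvV : ∀ x, dv V x = -4 * ⟪a, (x : E5)⟫_ℝ + dv W x := by
    intro x
    rw [hV, dv_add hXs hWs, hX, dv_cf a hA]
  have hmain : ∀ x, - (deriv φ (ψ x) * w x) + dv W x + 8 * L * η x ≤ 0 ∧
      (x ∉ K → - (deriv φ (ψ x) * w x) + dv W x + 8 * L * η x < 0) := by
    intro x
    have hφx := hφ1 (ψ x)
    by_cases hx : x ∈ K
    · refine ⟨?_, fun h => absurd hx h⟩
      rw [hη0 x hx, hdvW0 x (hKχ x hx), hweq, hKχ x hx]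
      have h4 := h1 x hx
      have h5 : 0 ≤ deriv φ (ψ x) := hΛ0.trans hφx
      have h6 : 0 ≤ deriv φ (ψ x) * f x := mul_nonneg h5 h4
      linarith
    · have hxi : x ∈ (interior K)ᶜ := fun h => hx (interior_subset h)
      have h4 := hc x hxi
      have h5 := (abs_le.1 (hD x)).2
      have h6 := (hηb x).2
      have h7 : Λ * c ≤ deriv φ (ψ x) * w x :=
        mul_le_mul hφx h4 hc0.le (hΛ0.trans hφx)
      have h8 : 8 * L * η x ≤ 8 * L := by nlinarith
      constructor
      · linarith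
      · intro _; linarith
  have hg : Continuous fun x : S4 => -⟪a, (x : E5)⟫_ℝ - 2 * L * η x :=
    (continuous_const.inner continuous_subtype_val).neg.sub (continuous_const.fun_mul hηc)
  refine criterion hQs hVs hVt hg (fun x => ?_) (fun x y => ?_) (Or.inl ?_)
  · have h4 := (hmain x).1
    rw [hQd, hdvV]
    have h5 := mul_le_mul_of_nonneg_left h4 (hQpos x).le
    simp only [hw] at h5
    nlinarith
  · refine mul_nonneg (mul_pos (hQpos x) (hQpos y)).le ?_
    have e1 : ⟪V x - V y, (x : E5) - (y : E5)⟫_ℝ =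
        (-⟪a, (x : E5)⟫_ℝ + -⟪a, (y : E5)⟫_ℝ) / 2 * ‖(x : E5) - (y : E5)‖ ^ 2 +
        ⟪W x - W y, (x : E5) - (y : E5)⟫_ℝ := by
      have e2 : V x - V y = (cf a A x - cf a A y) + (W x - W y) := by
        simp only [hV, hX]; abel
      rw [e2, inner_add_left, cf_pair a hA]
    rw [e1]
    have hηx := hηb x
    have hηy := hηb y
    have hn2 : 0 ≤ ‖(x : E5) - (y : E5)‖ ^ 2 := by positivity
    have key : 0 ≤ ⟪W x - W y, (x : E5) - (y : E5)⟫_ℝ +
        L * (η x + η y) * ‖(x : E5) - (y : E5)‖ ^ 2 := by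
      have hηW : ∀ z, W z ≠ 0 → η z = 1 := by
        intro z hz
        apply hη1
        intro hzt
        apply hz
        simp only [hW]
        rw [hχ0 z (Metric.thickening_subset_cthickening δ K hzt), mul_zero, zero_smul]
      by_cases hxy : W x = 0 ∧ W y = 0
      · rw [hxy.1, hxy.2, sub_self, inner_zero_left, zero_add]
        have : 0 ≤ L * (η x + η y) := mul_nonneg hL0 (by linarith)
        positivity
      · have h4 : 1 ≤ η x + η y := by
          by_cases hx0 : W x = 0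
          · have hy0 : W y ≠ 0 := fun h => hxy ⟨hx0, h⟩
            rw [hηW y hy0]; linarith
          · rw [hηW x hx0]; linarith
        have h5 : |⟪W x - W y, (x : E5) - (y : E5)⟫_ℝ| ≤ L * ‖(x : E5) - (y : E5)‖ ^ 2 := by
          refine (abs_real_inner_le_norm _ _).trans ?_
          have := mul_le_mul_of_nonneg_right (hL x y) (norm_nonneg ((x : E5) - (y : E5)))
          nlinarith
        have h6 := (abs_le.1 h5).1
        have h7 : L * ‖(x : E5) - (y : E5)‖ ^ 2 ≤ L * (η x + η y) * ‖(x : E5) - (y : E5)‖ ^ 2 := by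
          have : 0 ≤ L * ‖(x : E5) - (y : E5)‖ ^ 2 := by positivity
          nlinarith
        linarith
    nlinarith
  · obtain ⟨x, hx⟩ := (Set.ne_univ_iff_exists_notMem K).1 hKne
    refine ⟨x, ?_⟩
    have h4 := (hmain x).2 hx
    rw [hQd, hdvV]
    have h5 := mul_lt_mul_of_pos_left h4 (hQpos x)
    simp only [hw] at h5
    nlinarith

end Pool.Agent.Helper82_Vir
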