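import Mathlib
import Pool.Agent.Helper82_Vir.Steep

set_option autoImplicit false

/-!
# Functions with two nondegenerate critical points
-/

namespace Pool.Agent.Helper82_Vir

open Pool.Agent.Helper42_Paneitz
open scoped Manifold ContDiff InnerProductSpace Topology Pointwise
open Filter MeasureTheory Set

/-- the Hessian of `f` (second derivative of the extension constant on rays) at a point; at a
critical point its restriction to the tangent space is the Hessian of `f`. -/
noncomputable def hess (f : S4 → ℝ) (x : S4) (v w : E5) : ℝ :=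
  fderiv ℝ (fderiv ℝ (radialExt f)) (x : E5) v w

/-- `x` is a nondegenerate critical point of `f` -/
def NondegCrit (f : S4 → ℝ) (x : S4) : Prop :=
  (∀ v, dd f x v = 0) ∧
  ∀ v : E5, ⟪(x : E5), v⟫_ℝ = 0 → (∀ w : E5, ⟪(x : E5), w⟫_ℝ = 0 → hess f x v w = 0) → v = 0

theorem hess_symm {f : S4 → ℝ} (hf : Sm f) (x : S4) (v w : E5) : hess f x v w = hess f x w v := by
  have h : IsSymmSndFDerivAt ℝ (radialExt f) (x : E5) :=
    ((hf x (S4_ne_zero x)).of_le two_le_infty).isSymmSndFDerivAt (by simp)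
  exact h.eq v w

theorem hess_nonneg {f : S4 → ℝ} (hf : Sm f) {x : S4} (hmin : ∀ y, f x ≤ f y) (v : E5) :
    0 ≤ hess f x v v := by
  have hx := S4_ne_zero x
  have hc : ContDiffAt ℝ 2 (radialExt f) (x : E5) := (hf x hx).of_le two_le_infty
  have hcn : ContDiffAt ℝ 2 (-radialExt f) (x : E5) := hc.neg
  have h1 := eventually_hasDerivAt_line (v := v) hcn
  have h2 := hasDerivAt_fderiv_line (v := v) hcn
  have hmax : IsLocalMax (fun t : ℝ => (-radialExt f) ((x : E5) + t • v)) 0 := by
    have hne : ∀ᶠ t : ℝ in 𝓝 0, (x : E5) + t • v ≠ 0 :=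
      (tendsto_line (x : E5) v).eventually (eventually_ne_zero hx)
    filter_upwards [hne] with t ht
    rw [Pi.neg_apply, Pi.neg_apply, zero_smul, add_zero, radialExt_coe, radialExt_apply _ ht]
    exact neg_le_neg (hmin _)
  have h3 := second_deriv_nonpos hmax h1 h2
  have h4 : fderiv ℝ (-radialExt f) = - fderiv ℝ (radialExt f) := by
    funext z; rw [fderiv_neg]; rfl
  have h5 : fderiv ℝ (-fderiv ℝ (radialExt f)) (x : E5) =
      - fderiv ℝ (fderiv ℝ (radialExt f)) (x : E5) := fderiv_neg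
  rw [h4, h5] at h3
  have h6 : -(fderiv ℝ (fderiv ℝ (radialExt f)) (x : E5) v v) ≤ 0 := h3
  unfold hess
  linarith

theorem hess_pos {f : S4 → ℝ} (hf : Sm f) {x : S4} (hmin : ∀ y, f x ≤ f y)
    (hnd : NondegCrit f x) {v : E5} (hv : ⟪(x : E5), v⟫_ℝ = 0) (hv0 : v ≠ 0) :
    0 < hess f x v v := by
  rcases (hess_nonneg hf hmin v).lt_or_eq with h | h
  · exact h
  · exfalso
    apply hv0
    refine hnd.2 v hv fun w _ => ?_
    by_contra hne
    -- quadratic in t
    have hq : ∀ t : ℝ, 0 ≤ 2 * t * hess f x v w + t ^ 2 * hess f x w w := by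
      intro t
      have h1 := hess_nonneg hf hmin (v + t • w)
      have h2 : hess f x (v + t • w) (v + t • w) =
          hess f x v v + 2 * t * hess f x v w + t ^ 2 * hess f x w w := by
        have hs := hess_symm hf x w v
        unfold hess at hs ⊢
        simp only [map_add, map_smul, _root_.add_apply, _root_.smul_apply, smul_eq_mul]
        rw [hs]
        ring
      rw [h2, ← h] at h1
      linarith
    set b := hess f x v w
    set c := hess f x w w with hc
    have hc0 : 0 ≤ c := hess_nonneg hf hmin w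
    have h3 := hq (-(b / (c + 1)))
    have hb2 : 0 < b ^ 2 := by positivity
    have h4 : 2 * (-(b / (c + 1))) * b + (-(b / (c + 1))) ^ 2 * c =
        -(b ^ 2 * (c + 2)) / (c + 1) ^ 2 := by
      field_simp
      ring
    rw [h4] at h3
    have h5 : -(b ^ 2 * (c + 2)) / (c + 1) ^ 2 < 0 := by
      apply div_neg_of_neg_of_pos
      · nlinarith
      · positivity
    linarith

theorem hess_lower {f : S4 → ℝ} (hf : Sm f) {x : S4} (hmin : ∀ y, f x ≤ f y)
    (hnd : NondegCrit f x) : ∃ m : ℝ, 0 < m ∧ ∀ v : E5, ⟪(x : E5), v⟫_ℝ = 0 →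
      2 * m * ‖v‖ ^ 2 ≤ hess f x v v := by
  set T : Set E5 := Metric.sphere (0 : E5) 1 ∩ {v | ⟪(x : E5), v⟫_ℝ = 0} with hT
  have hTc : IsCompact T := (isCompact_sphere (0 : E5) 1).inter_right
    (isClosed_eq (continuous_const.inner continuous_id) continuous_const)
  have hcont : Continuous fun v : E5 => hess f x v v := by
    unfold hess
    exact ((fderiv ℝ (fderiv ℝ (radialExt f)) (x : E5)).continuous).clm_apply continuous_id
  have hscale : ∀ (c : ℝ) (v : E5), hess f x (c • v) (c • v) = c ^ 2 * hess f x v v := by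
    intro c v
    unfold hess
    simp only [map_smul, _root_.smul_apply, smul_eq_mul]
    ring
  rcases T.eq_empty_or_nonempty with he | hne
  · refine ⟨1, one_pos, fun v hv => ?_⟩
    by_cases hv0 : v = 0
    · subst hv0
      have := hscale 0 0
      simp only [zero_smul] at this
      rw [this]; simp
    · exfalso
      have hn := norm_pos_of_ne hv0
      have : ‖v‖⁻¹ • v ∈ T := by
        refine ⟨?_, ?_⟩
        · rw [mem_sphere_zero_iff_norm, norm_smul, norm_inv, norm_norm, inv_mul_cancel₀ hn.ne']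
        · show ⟪(x : E5), ‖v‖⁻¹ • v⟫_ℝ = 0
          rw [inner_smul_right, hv, mul_zero]
      rw [he] at this
      exact this
  · obtain ⟨v₀, hv₀, hm⟩ := hTc.exists_isMinOn hne hcont.continuousOn
    have hv₀n : ‖v₀‖ = 1 := mem_sphere_zero_iff_norm.1 hv₀.1
    have hpos : 0 < hess f x v₀ v₀ := hess_pos hf hmin hnd hv₀.2 (by
      intro h; rw [h, norm_zero] at hv₀n; exact zero_ne_one hv₀n)
    refine ⟨hess f x v₀ v₀ / 2, half_pos hpos, fun v hv => ?_⟩
    by_cases hv0 : v = 0
    · subst hv0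
      have := hscale 0 0
      simp only [zero_smul] at this
      rw [this]; simp
    · have hn := norm_pos_of_ne hv0
      have hmem : ‖v‖⁻¹ • v ∈ T := by
        refine ⟨?_, ?_⟩
        · rw [mem_sphere_zero_iff_norm, norm_smul, norm_inv, norm_norm, inv_mul_cancel₀ hn.ne']
        · show ⟪(x : E5), ‖v‖⁻¹ • v⟫_ℝ = 0
          rw [inner_smul_right, hv, mul_zero]
      have h1 : hess f x v₀ v₀ ≤ hess f x (‖v‖⁻¹ • v) (‖v‖⁻¹ • v) := hm hmem
      rw [hscale] at h1
      have h2 : ‖v‖ ^ 2 * (‖v‖⁻¹ ^ 2 * hess f x v v) = hess f x v v := by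
        field_simp
      have h3 := mul_le_mul_of_nonneg_left h1 (sq_nonneg ‖v‖)
      rw [h2] at h3
      linarith

/-- the rotation part of the conformal field vanishing at `N` and `S` -/
noncomputable def An (N S : E5) : E5 →L[ℝ] E5 :=
  (innerSL ℝ S).smulRight N - (innerSL ℝ N).smulRight S

theorem An_apply (N S x : E5) : An N S x = ⟪S, x⟫_ℝ • N - ⟪N, x⟫_ℝ • S := rfl

theorem An_skew (N S : E5) (v : E5) : ⟪An N S v, v⟫_ℝ = 0 := by
  rw [An_apply, inner_sub_left, real_inner_smul_left, real_inner_smul_left]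
  ring

/-- Near a nondegenerate minimum `N` the conformal field from `N` to `S` increases `f`. -/
theorem pos_near_min {f : S4 → ℝ} (hf : Sm f) {N S : S4} (hNS : N ≠ S) (hmin : ∀ y, f N ≤ f y)
    (hnd : NondegCrit f N) :
    ∀ᶠ x in 𝓝 N, x ≠ N → 0 < dd f x (cf ((S : E5) - N) (An N S) x) := by
  obtain ⟨m, hm0, hm⟩ := hess_lower hf hmin hnd
  set G : E5 → E5 →L[ℝ] ℝ := fderiv ℝ (radialExt f) with hG
  have hN0 := S4_ne_zero N
  have hN1 := S4_norm N
  have hS1 := S4_norm S
  have hGN : G (N : E5) = 0 := by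
    ext v; exact hnd.1 v
  have hGd : HasFDerivAt G (fderiv ℝ G (N : E5)) (N : E5) := by
    have h1 : ContDiffAt ℝ ∞ G (N : E5) := (hf N hN0).fderiv_right (by simp)
    exact (h1.differentiableAt (by simp)).hasFDerivAt
  set HG := fderiv ℝ G (N : E5) with hHG
  -- little-o estimate
  have hlo := hGd.isLittleO
  have hev : ∀ᶠ y in 𝓝 (N : E5), ‖G y - G (N : E5) - HG (y - N)‖ ≤ m * ‖y - (N : E5)‖ :=
    hlo.def hm0
  set c : ℝ := ⟪(S : E5), (N : E5)⟫_ℝ with hc
  have hc1 : c < 1 := by
    have h1 : 0 < ‖(S : E5) - (N : E5)‖ ^ 2 := by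
      have : (S : E5) - (N : E5) ≠ 0 := by
        intro h; exact hNS (Subtype.ext (sub_eq_zero.1 h).symm)
      have := norm_pos_of_ne this
      positivity
    rw [norm_sub_sq_S4] at h1
    linarith
  set C : ℝ := ‖HG‖ + m with hC
  have hC0 : 0 ≤ C := by positivity
  -- the central projection
  set y : S4 → E5 := fun x => (⟪(x : E5), (N : E5)⟫_ℝ)⁻¹ • (x : E5) with hy
  have hNN : ⟪(N : E5), (N : E5)⟫_ℝ = 1 := by rw [real_inner_self_eq_norm_sq, hN1]; norm_num
  have hic : Continuous fun x : S4 => ⟪(x : E5), (N : E5)⟫_ℝ :=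
    continuous_subtype_val.inner continuous_const
  have hyc : ContinuousAt y N := by
    refine ContinuousAt.smul (ContinuousAt.inv₀ hic.continuousAt ?_) ?_
    · rw [hNN]; exact one_ne_zero
    · exact continuous_subtype_val.continuousAt
  have hyN : y N = (N : E5) := by
    simp only [hy, hNN, inv_one, one_smul]
  have hev2 : ∀ᶠ x in 𝓝 N, ‖G (y x) - G (N : E5) - HG (y x - N)‖ ≤ m * ‖y x - (N : E5)‖ := by
    have : Tendsto y (𝓝 N) (𝓝 (N : E5)) := by
      have := hyc.tendsto; rwa [hyN] at this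
    exact this.eventually hev
  have hev3 : ∀ᶠ x : S4 in 𝓝 N, 0 < ⟪(x : E5), (N : E5)⟫_ℝ := by
    have h2 : (0 : ℝ) < ⟪(N : E5), (N : E5)⟫_ℝ := by rw [hNN]; exact one_pos
    exact (hic.tendsto N).eventually (lt_mem_nhds h2)
  set ρ : ℝ := (1 - c) * m / (m + C) with hρ
  have hρ0 : 0 < ρ := by
    have : 0 < 1 - c := by linarith
    positivity
  have hev4 : ∀ᶠ x in 𝓝 N, ‖y x - (N : E5)‖ < ρ := by
    have h1 : ContinuousAt (fun x => ‖y x - (N : E5)‖) N := (hyc.sub continuousAt_const).norm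
    have h2 : ‖y N - (N : E5)‖ < ρ := by rw [hyN, sub_self, norm_zero]; exact hρ0
    exact h1.eventually (gt_mem_nhds h2)
  filter_upwards [hev2, hev3, hev4] with x hx2 hx3 hx4 hxN
  set t : ℝ := ⟪(x : E5), (N : E5)⟫_ℝ with ht
  set v : E5 := y x - (N : E5) with hv
  have hyx : y x = t⁻¹ • (x : E5) := rfl
  have hxy : (x : E5) = t • y x := by rw [hyx, smul_smul, mul_inv_cancel₀ hx3.ne', one_smul]
  have hyv : y x = (N : E5) + v := by rw [hv]; abel
  have hvN : ⟪(N : E5), v⟫_ℝ = 0 := by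
    rw [hv, inner_sub_right, hyx, inner_smul_right, real_inner_comm, ← ht, hNN,
      inv_mul_cancel₀ hx3.ne', sub_self]
  have hv0 : v ≠ 0 := by
    intro h
    apply hxN
    have h1 : y x = (N : E5) := by rw [hyv, h, add_zero]
    have h2 : (x : E5) = t • (N : E5) := by rw [hxy, h1]
    have h3 := S4_norm x
    rw [h2, norm_smul, hN1, mul_one, Real.norm_of_nonneg hx3.le] at h3
    apply Subtype.ext
    rw [h2, h3, one_smul]
  have hvn := norm_pos_of_ne hv0
  have hyne : y x ≠ 0 := by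
    rw [hyx]; exact smul_ne_zero (inv_ne_zero hx3.ne') (S4_ne_zero x)
  -- τ = 1/t
  set τ : ℝ := t⁻¹ with hτ
  have hτ2 : τ ^ 2 = 1 + ‖v‖ ^ 2 := by
    have h1 : ‖y x‖ ^ 2 = 1 + ‖v‖ ^ 2 := by
      rw [hyv, norm_add_sq_real, hN1, hvN]; ring
    rw [hyx, norm_smul, S4_norm, mul_one, Real.norm_eq_abs, sq_abs] at h1
    exact h1
  have hτ0 : 0 < τ := inv_pos.2 hx3
  have hτ1 : 1 ≤ τ := by nlinarith
  have hτle : τ - 1 ≤ ‖v‖ ^ 2 / 2 := by nlinarith
  -- values of G
  have hGv : m * ‖v‖ ^ 2 ≤ G (y x) v := by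
    have h1 := hm v hvN
    have h2 : |G (y x) v - HG v v| ≤ m * ‖v‖ * ‖v‖ := by
      have h3 : G (y x) v - HG v v = (G (y x) - G (N : E5) - HG (y x - N)) v := by
        rw [hGN, sub_zero]
        rfl
      rw [h3]
      exact (ContinuousLinearMap.le_opNorm _ _).trans
        (mul_le_mul_of_nonneg_right hx2 (norm_nonneg _))
    have h4 := (abs_le.1 h2).1
    have h5 : hess f N v v = HG v v := rfl
    rw [h5] at h1
    nlinarith
  have hGS : |G (y x) (S : E5)| ≤ C * ‖v‖ := by
    have h1 : ‖G (y x)‖ ≤ C * ‖v‖ := by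
      have h2 : G (y x) = (G (y x) - G (N : E5) - HG (y x - N)) + HG v := by
        rw [hGN, sub_zero, hv]; abel
      rw [h2]
      refine (norm_add_le _ _).trans ?_
      have h3 := HG.le_opNorm v
      rw [hC]
      nlinarith
    have h2 := (G (y x)).le_opNorm (S : E5)
    rw [hS1, mul_one] at h2
    exact h2.trans h1
  -- value of the derivative
  have hGx : ∀ w : E5, G (x : E5) w = t⁻¹ * G (y x) w := by
    intro w
    have h := fderiv_radialExt_smul hf hx3 hyne w
    rw [← hxy] at h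
    exact h
  have hGy : G (y x) (y x) = 0 := by
    have h1 := dd_self hf x
    have h2 : G (x : E5) (x : E5) = 0 := h1
    rw [hGx] at h2
    have h4 : G (y x) (x : E5) = 0 := by
      rcases mul_eq_zero.1 h2 with h | h
      · exact absurd h (inv_ne_zero hx3.ne')
      · exact h
    rw [hyx, map_smul, ← hyx, h4, smul_zero]
  have hval : dd f x (cf ((S : E5) - N) (An N S) x) =
      (τ - 1) * G (y x) (S : E5) + (τ - c - ⟪(S : E5), v⟫_ℝ) * G (y x) v := by
    have h1 : dd f x (cf ((S : E5) - N) (An N S) x) = G (x : E5) (((S : E5) - N) + An N S x) := by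
      unfold cf
      rw [dd_add, dd_sub, dd_smul, dd_self hf]
      show G (x : E5) _ - _ + G (x : E5) _ = _
      rw [map_add]
      ring
    have h2 : G (x : E5) (((S : E5) - N) + An N S x) =
        t⁻¹ * G (y x) (((S : E5) - N) + An N S x) := hGx _
    have h3 : t⁻¹ • (((S : E5) - N) + An N S x) =
        (τ - 1) • (S : E5) + (τ - c - ⟪(S : E5), v⟫_ℝ) • v - (τ - c - ⟪(S : E5), v⟫_ℝ) • y x := by
      have e1 : An N S (x : E5) = t • An N S (y x) := by
        conv_lhs => rw [hxy]
        rw [map_smul]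
      have e2 : An N S (y x) = (c + ⟪(S : E5), v⟫_ℝ) • (N : E5) - (S : E5) := by
        rw [An_apply, hyv, inner_add_right, inner_add_right, hNN, hvN, ← hc, add_zero, one_smul]
      rw [smul_add, e1, smul_smul, inv_mul_cancel₀ hx3.ne', one_smul, e2, ← hτ, hyv]
      module
    rw [h1, h2]
    have h4 : t⁻¹ * G (y x) (((S : E5) - N) + An N S x) =
        G (y x) (t⁻¹ • (((S : E5) - N) + An N S x)) := by rw [map_smul, smul_eq_mul]
    rw [h4, h3, map_sub, map_add, map_smul, map_smul, map_smul, hGy]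
    simp only [smul_eq_mul]
    ring
  rw [hval]
  have hSv : |⟪(S : E5), v⟫_ℝ| ≤ ‖v‖ := by
    have := abs_real_inner_le_norm (S : E5) v
    rwa [hS1, one_mul] at this
  have h1 := (abs_le.1 hSv).2
  have h2 := (abs_le.1 hGS).1
  have h5 : ‖v‖ * (m + C) < (1 - c) * m := by
    have h6 : ‖v‖ < (1 - c) * m / (m + C) := hx4
    rwa [lt_div_iff₀ (by positivity)] at h6
  have hcoef : 1 - c - ‖v‖ ≤ τ - c - ⟪(S : E5), v⟫_ℝ := by linarith
  have hcoef0 : 0 < 1 - c - ‖v‖ := by
    have : ‖v‖ * m ≤ ‖v‖ * (m + C) := by nlinarith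
    nlinarith
  have h7 : (1 - c - ‖v‖) * (m * ‖v‖ ^ 2) ≤ (τ - c - ⟪(S : E5), v⟫_ℝ) * G (y x) v :=
    mul_le_mul hcoef hGv (by positivity) (by linarith)
  have h8 : -((‖v‖ ^ 2 / 2) * (C * ‖v‖)) ≤ (τ - 1) * G (y x) (S : E5) := by
    have h9 : |(τ - 1) * G (y x) (S : E5)| ≤ (‖v‖ ^ 2 / 2) * (C * ‖v‖) := by
      rw [abs_mul, abs_of_nonneg (by linarith : 0 ≤ τ - 1)]
      exact mul_le_mul hτle hGS (abs_nonneg _) (by positivity)
    exact (abs_le.1 h9).1
  have h10 : 0 < ‖v‖ ^ 2 * ((1 - c - ‖v‖) * m - C * ‖v‖ / 2) := by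
    apply mul_pos (by positivity)
    have : 0 ≤ C * ‖v‖ := by positivity
    nlinarith
  nlinarith

theorem radialExt_neg (f : S4 → ℝ) : radialExt (fun x => - f x) = - radialExt f := by
  funext y
  by_cases hy : y ≠ 0
  · rw [Pi.neg_apply, radialExt_apply _ hy, radialExt_apply _ hy]
  · unfold radialExt
    rw [Pi.neg_apply, dif_neg hy, dif_neg hy, neg_zero]

theorem hess_neg (f : S4 → ℝ) (x : S4) (v w : E5) : hess (fun z => - f z) x v w = - hess f x v w := by
  unfold hess
  have h4 : fderiv ℝ (-radialExt f) = - fderiv ℝ (radialExt f) := by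
    funext z; rw [fderiv_neg]; rfl
  have h5 : fderiv ℝ (-fderiv ℝ (radialExt f)) (x : E5) =
      - fderiv ℝ (fderiv ℝ (radialExt f)) (x : E5) := fderiv_neg
  rw [radialExt_neg, h4, h5]
  rfl

theorem nondegCrit_neg {f : S4 → ℝ} (hf : Sm f) {x : S4} (h : NondegCrit f x) :
    NondegCrit (fun z => - f z) x := by
  refine ⟨fun v => ?_, fun v hv hw => h.2 v hv fun w hxw => ?_⟩
  · rw [dd_fun_neg hf, h.1 v, neg_zero]
  · have := hw w hxw
    rw [hess_neg] at this
    linarith

theorem cf_neg (N S : E5) (x : S4) : cf (N - S) (An S N) x = - cf (S - N) (An N S) x := by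
  unfold cf
  rw [An_apply, An_apply, inner_sub_left, inner_sub_left]
  module

theorem dd_eq_zero_of_max {f : S4 → ℝ} (hf : Sm f) {x : S4} (hmax : ∀ y, f y ≤ f x) (v : E5) :
    dd f x v = 0 := by
  have h := dd_eq_zero_of_min (sm_neg hf) (x := x) (fun y => neg_le_neg (hmax y)) v
  rw [dd_fun_neg hf] at h
  linarith

/-- the `i`-th standard basis vector as a point of the sphere -/
noncomputable def pt (i : Fin 5) : S4 := ⟨ee i, by rw [mem_sphere_zero_iff_norm]; exact norm_ee i⟩

theorem pt_ne {i j : Fin 5} (h : i ≠ j) : pt i ≠ pt j := by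
  intro he
  have h1 : ee i = ee j := congrArg Subtype.val he
  have h2 := inner_ee_ee h
  rw [h1, real_inner_self_eq_norm_sq, norm_ee] at h2
  norm_num at h2

instance preconn_S4 : PreconnectedSpace S4 := by
  refine Subtype.preconnectedSpace (isPreconnected_sphere ?_ 0 1)
  rw [← Module.finrank_eq_rank, finrank_euclideanSpace_fin]
  norm_num

/-- **Two nondegenerate critical points.** -/
theorem two_crit {ψ : S4 → ℝ} (hψ : Sm ψ) {N S : S4}
    (hcrit : ∀ x, (∀ v, dd ψ x v = 0) → x = N ∨ x = S) (hN : NondegCrit ψ N)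
    (hS : NondegCrit ψ S) :
    ∃ Λ : ℝ, ∀ φ : ℝ → ℝ, ContDiff ℝ ∞ φ → (∀ t, Λ ≤ deriv φ t) →
      ¬ IsPaneitzCurvature (fun x => Real.exp (-φ (ψ x))) := by
  have hψc := continuous_of_sm hψ
  obtain ⟨p, -, hp⟩ := isCompact_univ.exists_isMinOn ⟨N, mem_univ N⟩ (hψc.continuousOn (s := univ))
  obtain ⟨q, -, hq⟩ := isCompact_univ.exists_isMaxOn ⟨N, mem_univ N⟩ (hψc.continuousOn (s := univ))
  have hpmin : ∀ y, ψ p ≤ ψ y := fun y => hp (mem_univ y)
  have hqmax : ∀ y, ψ y ≤ ψ q := fun y => hq (mem_univ y)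
  have hpc := hcrit p (dd_eq_zero_of_min hψ hpmin)
  have hqc := hcrit q (dd_eq_zero_of_max hψ hqmax)
  have hpq : p ≠ q := by
    intro h
    have hconst : ∀ x, x = N ∨ x = S := by
      intro x
      refine hcrit x (dd_eq_zero_of_min hψ fun y => ?_)
      have h1 := hqmax x
      rw [← h] at h1
      exact h1.trans (hpmin y)
    have h01 := pt_ne (show (0 : Fin 5) ≠ 1 by decide)
    have h02 := pt_ne (show (0 : Fin 5) ≠ 2 by decide)
    have h12 := pt_ne (show (1 : Fin 5) ≠ 2 by decide)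
    rcases hconst (pt 0) with a | a <;> rcases hconst (pt 1) with b | b <;>
      rcases hconst (pt 2) with c | c <;> simp_all
  have hndp : NondegCrit ψ p := by rcases hpc with h | h <;> rw [h] <;> assumption
  have hndq : NondegCrit ψ q := by rcases hqc with h | h <;> rw [h] <;> assumption
  have hcrit2 : ∀ x, (∀ v, dd ψ x v = 0) → x = p ∨ x = q := by
    intro x hx
    rcases hcrit x hx with h | h <;> rcases hpc with h1 | h1 <;> rcases hqc with h2 | h2 <;>
      simp_all
  set X : S4 → E5 := cf ((q : E5) - p) (An p q) with hX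
  have ev1 := pos_near_min hψ hpq hpmin hndp
  have ev2 := pos_near_min (sm_neg hψ) hpq.symm (fun y => neg_le_neg (hqmax y))
    (nondegCrit_neg hψ hndq)
  have ev2' : ∀ᶠ x in 𝓝 q, x ≠ q → 0 < dd ψ x (X x) := by
    filter_upwards [ev2] with x hx hxq
    have h := hx hxq
    rw [dd_fun_neg hψ, cf_neg, dd_neg, neg_neg] at h
    exact h
  obtain ⟨r1, hr1, hb1⟩ := Metric.eventually_nhds_iff.1 ev1
  obtain ⟨r2, hr2, hb2⟩ := Metric.eventually_nhds_iff.1 ev2'
  have hdpq : 0 < dist p q := dist_pos.2 hpq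
  set r : ℝ := min (min r1 r2) (dist p q) / 3 with hr
  have hr0 : 0 < r := by positivity
  have hrr1 : r < r1 := by
    have : min (min r1 r2) (dist p q) ≤ r1 := (min_le_left _ _).trans (min_le_left _ _)
    rw [hr]; linarith
  have hrr2 : r < r2 := by
    have : min (min r1 r2) (dist p q) ≤ r2 := (min_le_left _ _).trans (min_le_right _ _)
    rw [hr]; linarith
  have hrd : 2 * r < dist p q := by
    have : min (min r1 r2) (dist p q) ≤ dist p q := min_le_right _ _
    rw [hr]; linarith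
  set K : Set S4 := Metric.closedBall p r ∪ Metric.closedBall q r with hK
  have hKc : IsClosed K := Metric.isClosed_closedBall.union Metric.isClosed_closedBall
  have hpos : ∀ x ∈ K, x ≠ p → x ≠ q → 0 < dd ψ x (X x) := by
    intro x hx hxp hxq
    rcases hx with hx | hx
    · exact hb1 (lt_of_le_of_lt (Metric.mem_closedBall.1 hx) hrr1) hxp
    · exact hb2 (lt_of_le_of_lt (Metric.mem_closedBall.1 hx) hrr2) hxq
  have hpi : p ∈ interior K := by
    rw [mem_interior]
    exact ⟨Metric.ball p r, fun x hx => Or.inl (Metric.ball_subset_closedBall hx),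
      Metric.isOpen_ball, Metric.mem_ball_self hr0⟩
  have hqi : q ∈ interior K := by
    rw [mem_interior]
    exact ⟨Metric.ball q r, fun x hx => Or.inr (Metric.ball_subset_closedBall hx),
      Metric.isOpen_ball, Metric.mem_ball_self hr0⟩
  refine steep hψ hKc ?_ ((q : E5) - p) (An_skew p q) (fun x hx => ?_) (fun x hx => ?_)
    (fun x hx => ?_)
  · intro huniv
    have hh := (isPreconnected_closed_iff.1 (isPreconnected_univ (α := S4)))
      (Metric.closedBall p r) (Metric.closedBall q r) Metric.isClosed_closedBall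
      Metric.isClosed_closedBall (by rw [← hK, huniv])
      ⟨p, mem_univ p, Metric.mem_closedBall_self hr0.le⟩
      ⟨q, mem_univ q, Metric.mem_closedBall_self hr0.le⟩
    obtain ⟨z, -, hz1, hz2⟩ := hh
    have h1 := Metric.mem_closedBall.1 hz1
    have h2 := Metric.mem_closedBall.1 hz2
    have h3 := dist_triangle_left p q z
    linarith
  · by_cases hxp : x = p
    · rw [hxp, hndp.1]
    · by_cases hxq : x = q
      · rw [hxq, hndq.1]
      · exact (hpos x hx hxp hxq).le
  · have hxK : x ∈ K := hKc.frontier_subset hx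
    have hxi : x ∉ interior K := hx.2
    refine hpos x hxK ?_ ?_
    · rintro rfl; exact hxi hpi
    · rintro rfl; exact hxi hqi
  · by_contra hno
    push Not at hno
    rcases hcrit2 x hno with h | h
    · exact hx (h ▸ interior_subset hpi)
    · exact hx (h ▸ interior_subset hqi)

end Pool.Agent.Helper82_Vir
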